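import Pool.Agent.H14e.Jm

namespace Pool.Agent.H14e

open Finset
open scoped Pointwise

theorem kk_mix (n : ℕ) (a b t : ℝ) :
    (1 - t) • kk n a + t • kk n b = kk n ((1 - t) * a + t * b) := by
  ext i j
  simp only [Matrix.add_apply, Matrix.smul_apply, smul_eq_mul, kk]
  split_ifs
  · rfl
  · ring

theorem kk_one_mem (n : ℕ) : kk n 1 ∈ Pn n := by
  have h : kk n 1 = pmat (1 : Equiv.Perm (Fin n)) := by
    ext i j
    simp only [kk, pmat, Equiv.Perm.one_apply]
    split_ifs
    · rfl
    · simp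
  rw [h]
  exact subset_convexHull ℝ _ (pmat_mem (fun x => rfl))

theorem kk_zero_mem (n : ℕ) (hn : Even n) (h2 : 2 ≤ n) : kk n 0 ∈ Pn n := by
  have hinv : ∀ x : Fin n, Fin.revPerm (Fin.revPerm x) = x := fun x => by simp
  have hM : pmat (Fin.revPerm : Equiv.Perm (Fin n)) ∈ Pn n :=
    subset_convexHull ℝ _ (pmat_mem hinv)
  have h := av_mem hM
  rw [av_eq h2 hM] at h
  have ht : ∑ i, pmat (Fin.revPerm : Equiv.Perm (Fin n)) i i = 0 := by
    apply sum_eq_zero
    intro i _
    simp only [pmat]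
    rw [if_neg]
    intro hc
    have h3 := congrArg Fin.val hc
    rw [Fin.revPerm_apply, Fin.val_rev] at h3
    obtain ⟨r, hr⟩ := hn
    have := i.2
    omega
  rw [ht, zero_div] at h
  exact h

theorem cj_one {n : ℕ} (B : Matrix (Fin n) (Fin n) ℝ) : cj 1 B = B := rfl

theorem av_ri {n : ℕ} (h2 : 2 ≤ n) {B : Matrix (Fin n) (Fin n) ℝ}
    (hB : B ∈ intrinsicInterior ℝ (Pn n)) : av B ∈ intrinsicInterior ℝ (Pn n) := by
  classical
  have hBC : B ∈ Pn n := intrinsicInterior_subset hB
  have hf : (2 : ℝ) ≤ (n.factorial : ℝ) := by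
    have : 2 ≤ n.factorial := by
      calc 2 = Nat.factorial 2 := rfl
        _ ≤ n.factorial := Nat.factorial_le h2
    exact_mod_cast this
  set N : ℝ := (n.factorial : ℝ) with hN
  have hz : (∑ τ ∈ (univ : Finset (Equiv.Perm (Fin n))).erase 1, (1 / (N - 1)) • cj τ B) ∈ Pn n := by
    apply (pn_convex n).sum_mem
    · intro τ _
      apply div_nonneg zero_le_one
      linarith
    · rw [sum_const, card_erase_of_mem (mem_univ _), card_univ, Fintype.card_perm,
        Fintype.card_fin, nsmul_eq_mul, Nat.cast_sub (Nat.factorial_pos n), Nat.cast_one, ← hN]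
      rw [mul_one_div, div_self]
      linarith
    · intro τ _; exact cj_mem τ hBC
  have key := ii_seg (pn_convex n) hB hz (t := 1 - 1 / N)
    (by rw [sub_nonneg, div_le_one (by linarith)]; linarith)
    (by have : 0 < 1 / N := by positivity
        linarith)
  have e : av B = (1 - (1 - 1 / N)) • B + (1 - 1 / N) •
      (∑ τ ∈ (univ : Finset (Equiv.Perm (Fin n))).erase 1, (1 / (N - 1)) • cj τ B) := by
    rw [av, ← add_sum_erase _ _ (mem_univ (1 : Equiv.Perm (Fin n))), cj_one, smul_sum]
    congr 1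
    · congr 1
      ring
    · apply sum_congr rfl
      intro τ _
      rw [smul_smul]
      congr 1
      have h1 : N ≠ 0 := by linarith
      have h3 : N - 1 ≠ 0 := by linarith
      field_simp
      exact hN
  rw [e]
  exact key

theorem ri_nonempty (n : ℕ) : (intrinsicInterior ℝ (Pn n)).Nonempty := by
  let _ : NormedAddCommGroup (Matrix (Fin n) (Fin n) ℝ) := Matrix.normedAddCommGroup
  let _ : NormedSpace ℝ (Matrix (Fin n) (Fin n) ℝ) := Matrix.normedSpace
  exact (intrinsicInterior_nonempty (pn_convex n)).mpr ⟨_, kk_one_mem n⟩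

theorem mid_ri {n : ℕ} (hn : Even n) (h2 : 2 ≤ n) :
    kk n (1 / n) ∈ intrinsicInterior ℝ (Pn n) := by
  obtain ⟨B, hB⟩ := ri_nonempty n
  have hBC : B ∈ Pn n := intrinsicInterior_subset hB
  have h := av_ri h2 hB
  rw [av_eq h2 hBC] at h
  set T := ∑ i, B i i with hT
  have hn2 : (2 : ℝ) ≤ n := by exact_mod_cast h2
  have hn0 : (n : ℝ) ≠ 0 := by linarith
  rcases le_or_gt 1 T with h1 | h1
  · have key := ii_seg (pn_convex n) h (kk_zero_mem n hn h2) (t := 1 - 1 / T)
      (by rw [sub_nonneg, div_le_one (by linarith)]; linarith)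
      (by have : 0 < 1 / T := by positivity
          linarith)
    rw [kk_mix] at key
    have e : (1 - (1 - 1 / T)) * (T / n) + (1 - 1 / T) * 0 = 1 / n := by
      have : T ≠ 0 := by linarith
      field_simp
      ring
    rw [e] at key
    exact key
  · have key := ii_seg (pn_convex n) h (kk_one_mem n) (t := (1 - T) / (n - T))
      (div_nonneg (by linarith) (by linarith))
      (by rw [div_lt_one (by linarith)]; linarith)
    rw [kk_mix] at key
    have e : (1 - (1 - T) / (n - T)) * (T / n) + (1 - T) / (n - T) * 1 = 1 / n := by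
      have : (n : ℝ) - T ≠ 0 := by linarith
      field_simp
      ring
    rw [e] at key
    exact key

theorem J_mem {n : ℕ} (hn : Even n) (h2 : 2 ≤ n) :
    (fun _ _ => (1 : ℝ) : Matrix (Fin n) (Fin n) ℝ) ∈ LI n n := by
  refine ⟨?_, fun i j => ⟨1, by norm_num⟩⟩
  have h := ii_smul (m := n) (by omega) (mid_ri hn h2)
  have e : (n : ℝ) • kk n (1 / n) = (fun _ _ => (1 : ℝ) : Matrix (Fin n) (Fin n) ℝ) := by
    have hn2 : (2 : ℝ) ≤ n := by exact_mod_cast h2
    have hn0 : (n : ℝ) ≠ 0 := by linarith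
    have hn1 : (n : ℝ) - 1 ≠ 0 := by linarith
    ext i j
    simp only [Matrix.smul_apply, smul_eq_mul, kk]
    split_ifs
    · field_simp
    · field_simp
  rw [e] at h
  exact h

theorem li_self {n : ℕ} (hn : Even n) (h2 : 2 ≤ n) : Nat.card (LI n n) = 1 := by
  have : LI n n = {(fun _ _ => (1 : ℝ) : Matrix (Fin n) (Fin n) ℝ)} := by
    apply Set.eq_singleton_iff_unique_mem.mpr
    refine ⟨J_mem hn h2, ?_⟩
    intro A hA
    have h1 := li_pos (by omega) hA
    ext i j
    have h3 := (lp_props (li_sub n n hA)).2 i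
    have h4 : ∑ j, (A i j - 1) = 0 := by
      rw [sum_sub_distrib, h3]
      simp
    have h5 := (sum_eq_zero_iff_of_nonneg (fun j _ => by linarith [h1 i j])).mp h4 j (mem_univ j)
    linarith
  rw [this]
  simp

end Pool.Agent.H14e
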