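import Pool.Agent.H14e.Up2
import Pool.Agent.H14e.Jn

namespace Pool.Agent.H14e

open Finset
open scoped Pointwise

theorem lp_symm {n m : ℕ} {A : Matrix (Fin n) (Fin n) ℝ} (hA : A ∈ LP n m) (i j : Fin n) :
    A i j = A j i := by
  obtain ⟨⟨B, hB, rfl⟩, _⟩ := hA
  have h := pn_sub n hB
  simp only [Matrix.smul_apply, smul_eq_mul]
  rw [h.1 i j]

theorem count_gen (n k : ℕ) (hn : 0 < n) (S S' : Finset (Matrix (Fin n) (Fin n) ℝ)) (b : ℝ)
    (hmap : ∀ A ∈ S, ∀ σ : Equiv.Perm (Fin n), (∀ x, σ (σ x) = x) → A + pmat σ ∈ S')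
    (hlow : ∀ A ∈ S, ∀ i j, b ≤ A i j) (hsym : ∀ A ∈ S', ∀ i j, A i j = A j i)
    (hcard : ∀ A ∈ S', ∀ i, (univ.filter (fun j => b + 1 ≤ A i j)).card ≤ k) :
    (S.card : ℝ) ≤ S'.card * Real.exp (-(((n : ℝ) - 1 - k) / 6)) := by
  classical
  set I := (univ.filter (fun σ : Equiv.Perm (Fin n) => ∀ x, σ (σ x) = x)) with hI
  have hmap' : ∀ q ∈ S ×ˢ I, q.1 + pmat q.2 ∈ S' := by
    intro q hq
    obtain ⟨h1, h2⟩ := mem_product.mp hq
    rw [hI, mem_filter] at h2
    exact hmap _ h1 _ h2.2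
  have hfib : ∀ Z ∈ S', (((S ×ˢ I).filter (fun q => q.1 + pmat q.2 = Z)).card : ℝ) ≤
      T n * Real.exp (-(((n : ℝ) - 1 - k) / 6)) := by
    intro Z hZ
    let N : Fin n → Finset (Fin n) := fun i => univ.filter (fun j => b + 1 ≤ Z i j)
    have hNs : ∀ x y, y ∈ N x ↔ x ∈ N y := by
      intro x y
      simp only [N, mem_filter, mem_univ, true_and]
      rw [hsym Z hZ x y]
    have hup := invs_upper N hNs n n univ (by simp) le_rfl
    have hle : ((S ×ˢ I).filter (fun q => q.1 + pmat q.2 = Z)).card ≤ (invs N univ).card := by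
      apply card_le_card_of_injOn (fun q => q.2)
      · intro q hq
        obtain ⟨hq1, hq2⟩ := mem_filter.mp hq
        obtain ⟨h1, h2⟩ := mem_product.mp hq1
        rw [hI, mem_filter] at h2
        apply mem_coe.mpr
        refine mem_invs.mpr ⟨h2.2, fun x hx => absurd (mem_univ x) hx, ?_⟩
        intro x _
        refine mem_filter.mpr ⟨mem_univ _, ?_⟩
        have h3 := hlow _ h1 x (q.2 x)
        rw [← hq2, Matrix.add_apply]
        simp only [pmat, if_true]
        linarith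
      · intro q hq q' hq' he
        obtain ⟨_, hq2⟩ := mem_filter.mp (mem_coe.mp hq)
        obtain ⟨_, hq2'⟩ := mem_filter.mp (mem_coe.mp hq')
        have he' : q.2 = q'.2 := he
        have h3 : q.1 + pmat q.2 = q'.1 + pmat q'.2 := by rw [hq2, hq2']
        rw [he'] at h3
        exact Prod.ext (add_right_cancel h3) he'
    have hD : (n : ℝ) * ((n : ℝ) - 1 - k) ≤ ((∑ x ∈ (univ : Finset (Fin n)), dg N univ x : ℕ) : ℝ) := by
      push_cast
      have : ∀ x ∈ (univ : Finset (Fin n)), (n : ℝ) - 1 - k ≤ (dg N univ x : ℝ) := by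
        intro x _
        have h1 : n ≤ dg N univ x + 1 + k := by
          unfold dg
          have h2 := le_card_sdiff (N x) (univ.erase x)
          rw [card_erase_of_mem (mem_univ x), card_univ, Fintype.card_fin] at h2
          have h3 := hcard Z hZ x
          have h4 : (N x).card ≤ k := h3
          omega
        have : (n : ℝ) ≤ (dg N univ x : ℝ) + 1 + k := by exact_mod_cast h1
        linarith
      calc (n : ℝ) * ((n : ℝ) - 1 - k) = ∑ _x ∈ (univ : Finset (Fin n)), ((n : ℝ) - 1 - k) := by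
            rw [sum_const, card_univ, Fintype.card_fin, nsmul_eq_mul]
        _ ≤ _ := sum_le_sum this
    calc (((S ×ˢ I).filter (fun q => q.1 + pmat q.2 = Z)).card : ℝ)
        ≤ ((invs N univ).card : ℝ) := by exact_mod_cast hle
      _ ≤ _ := hup
      _ ≤ T n * Real.exp (-(((n : ℝ) - 1 - k) / 6)) := by
        apply mul_le_mul_of_nonneg_left _ (Nat.cast_nonneg _)
        apply Real.exp_le_exp.mpr
        have hn0 : (0 : ℝ) < n := by exact_mod_cast hn
        rw [neg_div, neg_le_neg_iff, div_le_div_iff₀ (by norm_num) (by positivity)]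
        nlinarith
  have hTI : (T n : ℝ) ≤ I.card := by
    have h1 := T_le_invs n (univ : Finset (Fin n)) (by simp)
    have h2 : invs (fun _ => univ) (univ : Finset (Fin n)) ⊆ I := by
      intro σ hσ
      exact mem_filter.mpr ⟨mem_univ _, (mem_invs.mp hσ).1⟩
    exact_mod_cast h1.trans (card_le_card h2)
  have hsum : (S.card : ℝ) * I.card ≤ S'.card * (T n * Real.exp (-(((n : ℝ) - 1 - k) / 6))) := by
    have h1 := card_eq_sum_card_fiberwise hmap'
    rw [card_product] at h1
    calc (S.card : ℝ) * I.card = ((S.card * I.card : ℕ) : ℝ) := by push_cast; rfl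
      _ = ∑ Z ∈ S', (((S ×ˢ I).filter (fun q => q.1 + pmat q.2 = Z)).card : ℝ) := by
        rw [h1]; push_cast; rfl
      _ ≤ ∑ _Z ∈ S', T n * Real.exp (-(((n : ℝ) - 1 - k) / 6)) := sum_le_sum hfib
      _ = _ := by rw [sum_const, nsmul_eq_mul]
  have hT0 : (0 : ℝ) < T n := by exact_mod_cast T_pos n
  have h2 : (S.card : ℝ) * T n ≤ (S'.card * Real.exp (-(((n : ℝ) - 1 - k) / 6))) * T n := by
    calc (S.card : ℝ) * T n ≤ (S.card : ℝ) * I.card :=
          mul_le_mul_of_nonneg_left hTI (Nat.cast_nonneg _)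
      _ ≤ _ := hsum
      _ = _ := by ring
  exact le_of_mul_le_mul_right h2 hT0

theorem ratio_of_log (n k : ℕ) (a b : ℕ)
    (h : (a : ℝ) ≤ b * Real.exp (-(((n : ℝ) - 1 - k) / 6)))
    (hk : (k : ℝ) + 1 + 6 * Real.log ((n : ℝ) ^ 2 + 2) ≤ n) : (n ^ 2 + 2) * a ≤ b := by
  have hpos : (0 : ℝ) < (n : ℝ) ^ 2 + 2 := by positivity
  have h1 : (n : ℝ) ^ 2 + 2 ≤ Real.exp (((n : ℝ) - 1 - k) / 6) := by
    rw [← Real.log_le_iff_le_exp hpos]
    linarith
  have h2 : ((n : ℝ) ^ 2 + 2) * a ≤ b := by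
    calc ((n : ℝ) ^ 2 + 2) * a ≤ Real.exp (((n : ℝ) - 1 - k) / 6) * a :=
          mul_le_mul_of_nonneg_right h1 (Nat.cast_nonneg _)
      _ ≤ Real.exp (((n : ℝ) - 1 - k) / 6) * (b * Real.exp (-(((n : ℝ) - 1 - k) / 6))) :=
          mul_le_mul_of_nonneg_left h (Real.exp_pos _).le
      _ = b * (Real.exp (((n : ℝ) - 1 - k) / 6) * Real.exp (-(((n : ℝ) - 1 - k) / 6))) := by ring
      _ = b := by rw [← Real.exp_add, add_neg_cancel, Real.exp_zero, mul_one]
  exact_mod_cast h2

theorem lp_ratio (n m : ℕ) (hn : 0 < n)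
    (hk : ((m : ℝ) + 1) + 1 + 6 * Real.log ((n : ℝ) ^ 2 + 2) ≤ n) :
    (n ^ 2 + 2) * Nat.card (LP n m) ≤ Nat.card (LP n (m + 1)) := by
  classical
  apply ratio_of_log n (m + 1) _ _ _ (by push_cast; exact hk)
  have hcS : Nat.card (LP n m) = (lp_finite n m).toFinset.card := by
    rw [Nat.card_coe_set_eq, Set.ncard_eq_toFinset_card _ (lp_finite n m)]
  have hcS' : Nat.card (LP n (m + 1)) = (lp_finite n (m + 1)).toFinset.card := by
    rw [Nat.card_coe_set_eq, Set.ncard_eq_toFinset_card _ (lp_finite n (m + 1))]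
  rw [hcS, hcS']
  apply count_gen n (m + 1) hn _ _ 0
  · intro A hA σ hσ
    rw [Set.Finite.mem_toFinset] at hA ⊢
    exact lp_add hA hσ
  · intro A hA i j
    rw [Set.Finite.mem_toFinset] at hA
    exact (lp_props hA).1 i j
  · intro A hA i j
    rw [Set.Finite.mem_toFinset] at hA
    exact lp_symm hA i j
  · intro A hA i
    rw [Set.Finite.mem_toFinset] at hA
    have hp := lp_props hA
    have h1 : ((univ.filter (fun j => (0 : ℝ) + 1 ≤ A i j)).card : ℝ) ≤ ∑ j, A i j := by
      calc ((univ.filter (fun j => (0 : ℝ) + 1 ≤ A i j)).card : ℝ)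
          = ∑ j ∈ univ.filter (fun j => (0 : ℝ) + 1 ≤ A i j), (1 : ℝ) := by simp
        _ ≤ ∑ j ∈ univ.filter (fun j => (0 : ℝ) + 1 ≤ A i j), A i j :=
            sum_le_sum (fun j hj => by
              have := (mem_filter.mp hj).2
              linarith)
        _ ≤ ∑ j, A i j := sum_le_sum_of_subset_of_nonneg (subset_univ _)
            (fun j _ _ => hp.1 i j)
    rw [hp.2 i] at h1
    exact_mod_cast h1

theorem li_ratio (n m : ℕ) (hn : 0 < n) (hm1 : 1 ≤ m)
    (hk : ((m : ℝ) + 1) + 1 + 6 * Real.log ((n : ℝ) ^ 2 + 2) ≤ 2 * n) :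
    (n ^ 2 + 2) * Nat.card (LI n m) ≤ Nat.card (LI n (m + 1)) := by
  classical
  rcases Nat.lt_or_ge m n with hmn | hmn
  · have : LI n m = ∅ := by
      rw [Set.eq_empty_iff_forall_notMem]
      intro A hA
      have h1 := li_pos hm1 hA
      have h2 := (lp_props (li_sub n m hA)).2 ⟨0, hn⟩
      have h3 : ∑ _j : Fin n, (1 : ℝ) ≤ ∑ j, A ⟨0, hn⟩ j :=
        Finset.sum_le_sum (fun j _ => h1 _ j)
      rw [h2] at h3
      simp only [Finset.sum_const, Finset.card_univ, Fintype.card_fin, nsmul_eq_mul, mul_one] at h3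
      have h4 : n ≤ m := by exact_mod_cast h3
      omega
    rw [this]
    simp
  · have hcast : ((m + 1 - n : ℕ) : ℝ) = (m : ℝ) + 1 - n := by
      rw [Nat.cast_sub (by omega)]; push_cast; ring
    apply ratio_of_log n (m + 1 - n) _ _ _ (by rw [hcast]; linarith)
    have hcS : Nat.card (LI n m) = (li_finite n m).toFinset.card := by
      rw [Nat.card_coe_set_eq, Set.ncard_eq_toFinset_card _ (li_finite n m)]
    have hcS' : Nat.card (LI n (m + 1)) = (li_finite n (m + 1)).toFinset.card := by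
      rw [Nat.card_coe_set_eq, Set.ncard_eq_toFinset_card _ (li_finite n (m + 1))]
    rw [hcS, hcS']
    apply count_gen n (m + 1 - n) hn _ _ 1
    · intro A hA σ hσ
      rw [Set.Finite.mem_toFinset] at hA ⊢
      exact li_add hm1 hA hσ
    · intro A hA i j
      rw [Set.Finite.mem_toFinset] at hA
      exact li_pos hm1 hA i j
    · intro A hA i j
      rw [Set.Finite.mem_toFinset] at hA
      exact lp_symm (li_sub _ _ hA) i j
    · intro A hA i
      rw [Set.Finite.mem_toFinset] at hA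
      have hp := lp_props (li_sub _ _ hA)
      have hZ1 := li_pos (by omega) hA
      have h1 : ((univ.filter (fun j => (1 : ℝ) + 1 ≤ A i j)).card : ℝ) + n ≤ ∑ j, A i j := by
        have e : ∑ j, A i j = ∑ j, (A i j - 1) + n := by
          rw [sum_sub_distrib]; simp
        rw [e]
        have : ((univ.filter (fun j => (1 : ℝ) + 1 ≤ A i j)).card : ℝ) ≤ ∑ j, (A i j - 1) := by
          calc ((univ.filter (fun j => (1 : ℝ) + 1 ≤ A i j)).card : ℝ)
              = ∑ j ∈ univ.filter (fun j => (1 : ℝ) + 1 ≤ A i j), (1 : ℝ) := by simp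
            _ ≤ ∑ j ∈ univ.filter (fun j => (1 : ℝ) + 1 ≤ A i j), (A i j - 1) :=
              sum_le_sum (fun j hj => by
                have := (mem_filter.mp hj).2
                linarith)
            _ ≤ ∑ j, (A i j - 1) := sum_le_sum_of_subset_of_nonneg (subset_univ _)
                (fun j _ _ => by linarith [hZ1 i j])
        linarith
      rw [hp.2 i] at h1
      have h2 : (univ.filter (fun j => (1 : ℝ) + 1 ≤ A i j)).card + n ≤ m + 1 := by
        exact_mod_cast h1
      omega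

end Pool.Agent.H14e
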