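import Mathlib

namespace Pool.Agent.H14e

open Finset Nat

theorem poly_le (k : ℕ) (hk : 6 ≤ k) : k ^ 2 * ((2 * k + 1) ^ 2 + 2) ≤ 3 * 4 ^ k := by
  induction k, hk using Nat.le_induction with
  | base => norm_num
  | succ k hk ih =>
    have h : (k + 1) ^ 2 * ((2 * (k + 1) + 1) ^ 2 + 2) ≤ 4 * (k ^ 2 * ((2 * k + 1) ^ 2 + 2)) := by
      obtain ⟨t, rfl⟩ := Nat.exists_eq_add_of_le hk
      ring_nf
      nlinarith [Nat.zero_le t, Nat.zero_le (t ^ 2), Nat.zero_le (t ^ 3), Nat.zero_le (t ^ 4)]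
    calc (k + 1) ^ 2 * ((2 * (k + 1) + 1) ^ 2 + 2) ≤ 4 * (k ^ 2 * ((2 * k + 1) ^ 2 + 2)) := h
      _ ≤ 4 * (3 * 4 ^ k) := Nat.mul_le_mul_left _ ih
      _ = 3 * 4 ^ (k + 1) := by ring

theorem pow_self_le (k : ℕ) : k ^ k ≤ 3 ^ k * k ! := by
  have h1 : (k : ℝ) ^ k / k ! ≤ Real.exp k := Real.pow_div_factorial_le_exp _ (Nat.cast_nonneg k) k
  have h2 : Real.exp (k : ℝ) ≤ 3 ^ k := by
    have : Real.exp (k : ℝ) = (Real.exp 1) ^ k := by
      rw [← Real.exp_nat_mul]; simp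
    rw [this]
    exact pow_le_pow_left₀ (Real.exp_pos 1).le Real.exp_one_lt_three.le k
  have h3 : (0 : ℝ) < k ! := by exact_mod_cast Nat.factorial_pos k
  have h4 : (k : ℝ) ^ k ≤ 3 ^ k * k ! := by
    rw [div_le_iff₀ h3] at h1
    calc (k : ℝ) ^ k ≤ Real.exp k * k ! := h1
      _ ≤ 3 ^ k * k ! := mul_le_mul_of_nonneg_right h2 h3.le
  exact_mod_cast h4

theorem pm_count (n k : ℕ) (h1 : 2 * k ≤ n) (h2 : n ≤ 2 * k + 1) (hk : 0 < k) :
    2 ^ k * k ! ≤ (2 * k) *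
      (univ.filter (fun σ : Equiv.Perm (Fin n) => ∀ x, σ (σ x) = x)).card := by
  classical
  set C := (univ.filter (fun g : Equiv.Perm (Fin n) => g.cycleType = Multiset.replicate k 2)).card
    with hC
  have hle : C ≤ (univ.filter (fun σ : Equiv.Perm (Fin n) => ∀ x, σ (σ x) = x)).card := by
    apply card_le_card
    intro g hg
    rw [mem_filter] at hg ⊢
    refine ⟨mem_univ _, fun x => ?_⟩
    have : Fact (Nat.Prime 2) := ⟨Nat.prime_two⟩
    have : g ^ 2 = 1 := by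
      rw [Equiv.Perm.pow_prime_eq_one_iff]
      intro c hc
      rw [hg.2] at hc
      exact Multiset.eq_of_mem_replicate hc
    have h := congrArg (fun τ : Equiv.Perm (Fin n) => τ x) this
    simpa [pow_two] using h
  have hform := Equiv.Perm.card_of_cycleType_mul_eq (Fin n) (Multiset.replicate k 2)
  have hs : (Multiset.replicate k 2).sum = 2 * k := by
    simp [Multiset.sum_replicate, mul_comm]
  have hp : (Multiset.replicate k 2).prod = 2 ^ k := by simp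
  have hcond : (Multiset.replicate k 2).sum ≤ Fintype.card (Fin n) ∧
      ∀ a ∈ Multiset.replicate k 2, 2 ≤ a := by
    refine ⟨by rw [hs]; simpa using h1, ?_⟩
    intro a ha
    rw [Multiset.eq_of_mem_replicate ha]
  rw [if_pos hcond, hs, hp] at hform
  have htf : (Multiset.replicate k 2).toFinset = {2} := by
    rw [Multiset.toFinset_replicate, if_neg hk.ne']
  rw [htf, prod_singleton, Multiset.count_replicate_self, Fintype.card_fin] at hform
  have hf1 : (n - 2 * k)! = 1 := by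
    have : n - 2 * k = 0 ∨ n - 2 * k = 1 := by omega
    rcases this with h | h <;> rw [h] <;> rfl
  rw [hf1, one_mul] at hform
  have hCn : C * (2 ^ k * k !) = n ! := by rw [← hform, hC]
  have hn2 : (2 * k)! ≤ n ! := Nat.factorial_le h1
  have hcb : (2 * k)! = Nat.centralBinom k * (k ! * k !) := by
    have := Nat.choose_mul_factorial_mul_factorial (show k ≤ 2 * k by omega)
    rw [← this, Nat.centralBinom_eq_two_mul_choose]
    have e : 2 * k - k = k := by omega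
    rw [e]; ring
  have hcb2 := Nat.four_pow_le_two_mul_self_mul_centralBinom k hk
  have hkf : 0 < k ! := Nat.factorial_pos k
  -- C * 2^k ≥ cb * k!
  have h5 : Nat.centralBinom k * k ! ≤ C * 2 ^ k := by
    have : (Nat.centralBinom k * k !) * k ! ≤ (C * 2 ^ k) * k ! := by
      calc (Nat.centralBinom k * k !) * k ! = (2 * k)! := by rw [hcb]; ring
        _ ≤ n ! := hn2
        _ = (C * 2 ^ k) * k ! := by rw [← hCn]; ring
    exact Nat.le_of_mul_le_mul_right this hkf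
  have h6 : 4 ^ k * k ! ≤ (2 * k) * (C * 2 ^ k) := by
    calc 4 ^ k * k ! ≤ (2 * k * Nat.centralBinom k) * k ! := Nat.mul_le_mul_right _ hcb2
      _ = (2 * k) * (Nat.centralBinom k * k !) := by ring
      _ ≤ (2 * k) * (C * 2 ^ k) := Nat.mul_le_mul_left _ h5
  have h7 : (2 ^ k * k !) * 2 ^ k ≤ ((2 * k) * C) * 2 ^ k := by
    calc (2 ^ k * k !) * 2 ^ k = 4 ^ k * k ! := by
          rw [show (4 : ℕ) = 2 * 2 by norm_num, mul_pow]; ring
      _ ≤ (2 * k) * (C * 2 ^ k) := h6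
      _ = ((2 * k) * C) * 2 ^ k := by ring
  have h8 : 2 ^ k * k ! ≤ (2 * k) * C := Nat.le_of_mul_le_mul_right h7 (by positivity)
  exact h8.trans (Nat.mul_le_mul_left _ hle)

theorem invol_count (n c : ℕ) (hc : 1 ≤ c) (hn : 12 * c ^ 2 ≤ n) :
    (n ^ 2 + 2) * c ^ n ≤
      (univ.filter (fun σ : Equiv.Perm (Fin n) => ∀ x, σ (σ x) = x)).card := by
  set I := (univ.filter (fun σ : Equiv.Perm (Fin n) => ∀ x, σ (σ x) = x)).card with hI
  obtain ⟨k, hk1, hk2⟩ : ∃ k, 2 * k ≤ n ∧ n ≤ 2 * k + 1 := ⟨n / 2, by omega, by omega⟩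
  have hc2 : c ≤ c ^ 2 := by nlinarith
  have hk6 : 6 * c ^ 2 ≤ k := by omega
  have hk0 : 6 ≤ k := by nlinarith
  have h1 := pm_count n k hk1 hk2 (by omega)
  have h2 := pow_self_le k
  -- 3^k * (2k) I ≥ 2^k k^k ≥ (12 c^2)^k
  have h3 : (12 * c ^ 2) ^ k ≤ 3 ^ k * ((2 * k) * I) := by
    calc (12 * c ^ 2) ^ k = 2 ^ k * (6 * c ^ 2) ^ k := by
          rw [← mul_pow]; congr 1; ring
      _ ≤ 2 ^ k * k ^ k := Nat.mul_le_mul_left _ (Nat.pow_le_pow_left hk6 k)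
      _ ≤ 2 ^ k * (3 ^ k * k !) := Nat.mul_le_mul_left _ h2
      _ = 3 ^ k * (2 ^ k * k !) := by ring
      _ ≤ 3 ^ k * ((2 * k) * I) := Nat.mul_le_mul_left _ h1
  have h4 : 4 ^ k * (c ^ 2) ^ k ≤ (2 * k) * I := by
    have : 3 ^ k * (4 ^ k * (c ^ 2) ^ k) ≤ 3 ^ k * ((2 * k) * I) := by
      calc 3 ^ k * (4 ^ k * (c ^ 2) ^ k) = (12 * c ^ 2) ^ k := by
            rw [← mul_assoc, ← mul_pow, ← mul_pow]; norm_num
        _ ≤ _ := h3
    exact Nat.le_of_mul_le_mul_left this (by positivity)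
  have h5 := poly_le k hk0
  have hn3 : n ^ 2 + 2 ≤ (2 * k + 1) ^ 2 + 2 := by nlinarith
  have hcn : c ^ n ≤ c * (c ^ 2) ^ k := by
    calc c ^ n ≤ c ^ (2 * k + 1) := Nat.pow_le_pow_right hc hk2
      _ = c * (c ^ 2) ^ k := by rw [pow_succ, pow_mul]; ring
  have hck : 6 * c ≤ k := by omega
  -- multiply by 2k
  have h6 : (2 * k) * ((n ^ 2 + 2) * c ^ n) ≤ (2 * k) * I := by
    have a1 : (2 * k) * ((n ^ 2 + 2) * c ^ n) ≤ (2 * k) * (((2 * k + 1) ^ 2 + 2) * (c * (c ^ 2) ^ k)) :=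
      Nat.mul_le_mul_left _ (Nat.mul_le_mul hn3 hcn)
    have a2 : (2 * k) * (((2 * k + 1) ^ 2 + 2) * (c * (c ^ 2) ^ k))
        = (2 * k * c * ((2 * k + 1) ^ 2 + 2)) * (c ^ 2) ^ k := by ring
    have a3 : 2 * k * c * ((2 * k + 1) ^ 2 + 2) ≤ 4 ^ k := by
      have b1 : 3 * (2 * k * c) ≤ k ^ 2 := by nlinarith
      have b2 : 3 * (2 * k * c * ((2 * k + 1) ^ 2 + 2)) ≤ 3 * 4 ^ k := by
        calc 3 * (2 * k * c * ((2 * k + 1) ^ 2 + 2)) = (3 * (2 * k * c)) * ((2 * k + 1) ^ 2 + 2) := by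
              ring
          _ ≤ k ^ 2 * ((2 * k + 1) ^ 2 + 2) := Nat.mul_le_mul_right _ b1
          _ ≤ 3 * 4 ^ k := h5
      omega
    calc (2 * k) * ((n ^ 2 + 2) * c ^ n) ≤ _ := a1
      _ = _ := a2
      _ ≤ 4 ^ k * (c ^ 2) ^ k := Nat.mul_le_mul_right _ a3
      _ ≤ (2 * k) * I := h4
  exact Nat.le_of_mul_le_mul_left h6 (by omega)

end Pool.Agent.H14e
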