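import Mathlib

namespace Pool.Agent.H14e

open Finset

theorem down_nat (A : Finset ℕ) (h : ∀ a ∈ A, ∀ b ≤ a, b ∈ A) : A = range A.card := by
  rcases A.eq_empty_or_nonempty with he | hne
  · subst he; simp
  · have hA : A = range (A.max' hne + 1) := by
      ext x
      rw [mem_range]
      constructor
      · intro hx
        have := A.le_max' x hx
        omega
      · intro hx
        exact h _ (A.max'_mem hne) x (by omega)
    have hc : A.card = A.max' hne + 1 := by
      conv_lhs => rw [hA]
      exact card_range _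
    rw [hc]
    exact hA

theorem down_weight {E : Type*} [DecidableEq E] (D : Finset (E → ℕ)) (g : ℕ → ℝ)
    (hg0 : ∀ j, 0 ≤ g j) (ρ : ℝ) (hρ : 0 ≤ ρ) (hg : ∀ K : ℕ, ∑ j ∈ range K, g j ≤ ρ * K)
    (T : Finset E) (hD : ∀ x ∈ D, ∀ e ∈ T, ∀ j ≤ x e, Function.update x e j ∈ D) :
    ∑ x ∈ D, ∏ e ∈ T, g (x e) ≤ ρ ^ T.card * D.card := by
  classical
  induction T using Finset.induction_on with
  | empty => simp
  | insert e T he ih =>
    have ih' := ih (fun x hx e' he' => hD x hx e' (mem_insert_of_mem he'))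
    have key : ∑ x ∈ D, ∏ e' ∈ insert e T, g (x e') ≤ ρ * ∑ x ∈ D, ∏ e' ∈ T, g (x e') := by
      have hmap : ∀ x ∈ D, Function.update x e 0 ∈ D :=
        fun x hx => hD x hx e (mem_insert_self _ _) 0 (Nat.zero_le _)
      rw [← sum_fiberwise_of_maps_to hmap, ← sum_fiberwise_of_maps_to hmap
        (f := fun x => ∏ e' ∈ T, g (x e')), mul_sum]
      apply sum_le_sum
      intro b _
      set F := D.filter (fun x => Function.update x e 0 = b) with hF
      have hval : ∀ x ∈ F, ∀ e' ≠ e, x e' = b e' := by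
        intro x hx e' hne
        have := (mem_filter.mp hx).2
        rw [← this, Function.update_of_ne hne]
      have hh : ∀ x ∈ F, ∏ e' ∈ T, g (x e') = ∏ e' ∈ T, g (b e') := by
        intro x hx
        apply prod_congr rfl
        intro e' he'
        rw [hval x hx e' (fun hc => he (hc ▸ he'))]
      have hinj : Set.InjOn (fun x : E → ℕ => x e) (F : Set (E → ℕ)) := by
        intro x hx y hy hxy
        funext e'
        by_cases hc : e' = e
        · subst hc; exact hxy
        · rw [hval x hx e' hc, hval y hy e' hc]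
      have himg : F.image (fun x => x e) = range F.card := by
        rw [← card_image_of_injOn hinj]
        apply down_nat
        intro a ha j hj
        obtain ⟨x, hx, rfl⟩ := mem_image.mp ha
        refine mem_image.mpr ⟨Function.update x e j, ?_, by simp⟩
        refine mem_filter.mpr ⟨hD x (mem_filter.mp hx).1 e (mem_insert_self _ _) j hj, ?_⟩
        rw [Function.update_idem]
        exact (mem_filter.mp hx).2
      have hsum : ∑ x ∈ F, g (x e) ≤ ρ * F.card := by
        calc ∑ x ∈ F, g (x e) = ∑ j ∈ F.image (fun x => x e), g j :=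
              (sum_image hinj).symm
          _ = ∑ j ∈ range F.card, g j := by rw [himg]
          _ ≤ ρ * F.card := hg _
      have hb0 : 0 ≤ ∏ e' ∈ T, g (b e') := prod_nonneg (fun _ _ => hg0 _)
      calc ∑ x ∈ F, ∏ e' ∈ insert e T, g (x e')
          = ∑ x ∈ F, g (x e) * ∏ e' ∈ T, g (b e') := by
            apply sum_congr rfl
            intro x hx
            rw [prod_insert he, hh x hx]
        _ = (∑ x ∈ F, g (x e)) * ∏ e' ∈ T, g (b e') := by rw [sum_mul]
        _ ≤ (ρ * F.card) * ∏ e' ∈ T, g (b e') := mul_le_mul_of_nonneg_right hsum hb0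
        _ = ρ * ∑ x ∈ F, ∏ e' ∈ T, g (x e') := by
            rw [sum_congr rfl hh, sum_const, nsmul_eq_mul]
            ring
    calc ∑ x ∈ D, ∏ e' ∈ insert e T, g (x e') ≤ ρ * ∑ x ∈ D, ∏ e' ∈ T, g (x e') := key
      _ ≤ ρ * (ρ ^ T.card * D.card) := mul_le_mul_of_nonneg_left ih' hρ
      _ = ρ ^ (insert e T).card * D.card := by
        rw [card_insert_of_notMem he, pow_succ]
        ring

/-- the weight function -/
noncomputable def gw (a θ : ℝ) (j : ℕ) : ℝ := if j = 0 then 1 - a else Real.exp (-(θ * j))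

theorem gw_quad (a θ : ℝ) (hθ : 0 ≤ θ) : ∀ K : ℕ, θ * K ≤ 1 →
    ∑ j ∈ range (K + 1), gw a θ j ≤ (K + 1) - a - θ / 4 * ((K + 1) * K) := by
  intro K
  induction K with
  | zero => intro _; simp [gw]
  | succ K ih =>
    intro h
    push_cast at h ⊢
    have hK : θ * K ≤ 1 := by nlinarith
    have h1 := ih hK
    rw [sum_range_succ]
    have h2 : gw a θ (K + 1) ≤ 1 - θ * (K + 1) / 2 := by
      rw [gw, if_neg (by omega)]
      push_cast
      set x := θ * ((K : ℝ) + 1) with hx
      have hx0 : 0 ≤ x := by positivity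
      have h3 := Real.abs_exp_sub_one_sub_id_le (x := -x) (by rw [abs_neg, abs_of_nonneg hx0]; exact h)
      have h4 : 1 - x / 2 ≥ Real.exp (-x) := by
        have h5 : Real.exp (-x) * (1 + x + x ^ 2 / 2) ≤ 1 := by
          have h6 := Real.quadratic_le_exp_of_nonneg hx0
          calc Real.exp (-x) * (1 + x + x ^ 2 / 2) ≤ Real.exp (-x) * Real.exp x :=
                mul_le_mul_of_nonneg_left h6 (Real.exp_pos _).le
            _ = 1 := by rw [← Real.exp_add, neg_add_cancel, Real.exp_zero]
        have h7 : 0 < 1 + x + x ^ 2 / 2 := by positivity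
        have h8 : 1 ≤ (1 - x / 2) * (1 + x + x ^ 2 / 2) := by nlinarith [mul_nonneg hx0 hx0, mul_nonneg hx0 (mul_nonneg hx0 hx0), mul_nonneg hx0 (sub_nonneg.mpr h)]
        have h9 : Real.exp (-x) * (1 + x + x ^ 2 / 2) ≤ (1 - x / 2) * (1 + x + x ^ 2 / 2) :=
          h5.trans h8
        exact le_of_mul_le_mul_right h9 h7
      linarith
    nlinarith

theorem gw_sum (a w : ℝ) (ha0 : 0 ≤ a) (ha : a ≤ 1 / 3) (hw0 : 0 ≤ w) (hw : w ≤ 2) (K : ℕ) :
    ∑ j ∈ range K, gw a (a * w ^ 2) j ≤ (1 - a * (w - w ^ 2 / 4)) * K := by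
  set θ := a * w ^ 2 with hθ
  have hθ0 : 0 ≤ θ := by positivity
  have hδ : a * (w - w ^ 2 / 4) ≤ 1 / 3 := by
    have h1 : w - w ^ 2 / 4 ≤ 1 := by nlinarith [sq_nonneg (1 - w / 2)]
    have h2 : a * (w - w ^ 2 / 4) ≤ a * 1 := mul_le_mul_of_nonneg_left h1 ha0
    linarith
  induction K with
  | zero => simp
  | succ K ih =>
    rcases le_or_gt (θ * K) 1 with h | h
    · refine (gw_quad a θ hθ0 K h).trans ?_
      push_cast
      have : 0 ≤ a * (1 - w * ((K : ℝ) + 1) / 2) ^ 2 := by positivity
      rw [hθ]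
      nlinarith
    · rw [sum_range_succ]
      have hK0 : K ≠ 0 := by
        intro hc
        subst hc
        simp at h
        linarith
      have h2 : gw a θ K ≤ 1 / 2 := by
        rw [gw, if_neg hK0]
        have h3 : Real.exp (-(θ * K)) ≤ Real.exp (-1) := Real.exp_le_exp.mpr (by linarith)
        have h4 : Real.exp (-1) ≤ 1 / 2 := by
          rw [Real.exp_neg]
          have : (2 : ℝ) ≤ Real.exp 1 := by
            have := Real.add_one_le_exp (1 : ℝ)
            linarith
          rw [one_div]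
          exact inv_anti₀ (by norm_num) this
        linarith
      push_cast
      nlinarith

end Pool.Agent.H14e
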