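import Pool.Agent.H14e.Mn

namespace Pool.Agent.H14e

open Finset
open scoped Pointwise

theorem final_exp (n : ℕ) (hn : 2 ≤ n) (M a w : ℝ) (hM : 0 ≤ M)
    (ha : a = 1 - Real.exp (-(1 / (3 * n)))) (hw : w = 2 * ((n : ℝ) - 1) / ((n : ℝ) - 1 + 4 * M)) :
    a * w ^ 2 * (n * M / 2) - a * (w - w ^ 2 / 4) * (n * (n - 1) / 2) ≤
      -(((n : ℝ) - 1) ^ 2 / (7 * ((n : ℝ) - 1 + 4 * M))) := by
  have hn2 : (2 : ℝ) ≤ n := by exact_mod_cast hn
  have hn0 : (0 : ℝ) < n := by linarith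
  set Q : ℝ := (n : ℝ) - 1 + 4 * M with hQ
  have hQ0 : 0 < Q := by linarith
  have e : a * w ^ 2 * (n * M / 2) - a * (w - w ^ 2 / 4) * (n * (n - 1) / 2) =
      -(a * n / 2 * (((n : ℝ) - 1) ^ 2 / Q)) := by
    have hM4 : M = (Q - ((n : ℝ) - 1)) / 4 := by rw [hQ]; ring
    rw [hw, hM4]
    field_simp
    ring
  have hae : 1 / (3 * (n : ℝ) + 1) ≤ a := by
    have h1 := Real.add_one_le_exp (1 / (3 * (n : ℝ)))
    have h2 : Real.exp (-(1 / (3 * (n : ℝ)))) ≤ (3 * n) / (3 * (n : ℝ) + 1) := by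
      rw [Real.exp_neg, inv_eq_one_div, div_le_div_iff₀ (Real.exp_pos _) (by positivity)]
      have h3 : 3 * (n : ℝ) * (1 / (3 * (n : ℝ)) + 1) = 3 * n + 1 := by
        field_simp
        ring
      have h4 : 3 * (n : ℝ) * (1 / (3 * (n : ℝ)) + 1) ≤ 3 * n * Real.exp (1 / (3 * (n : ℝ))) :=
        mul_le_mul_of_nonneg_left h1 (by positivity)
      linarith
    have h5 : (1 : ℝ) / (3 * n + 1) = 1 - (3 * n) / (3 * (n : ℝ) + 1) := by
      field_simp
      ring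
    rw [ha, h5]
    linarith
  have h7 : (1 : ℝ) / 7 ≤ a * n / 2 := by
    have h8 : (2 : ℝ) / 7 ≤ (1 / (3 * (n : ℝ) + 1)) * n := by
      rw [one_div, inv_mul_eq_div, div_le_div_iff₀ (by norm_num) (by positivity)]
      linarith
    have h9 : (1 / (3 * (n : ℝ) + 1)) * n ≤ a * n := mul_le_mul_of_nonneg_right hae hn0.le
    linarith
  rw [e, neg_le_neg_iff]
  have h10 : 0 ≤ ((n : ℝ) - 1) ^ 2 / Q := by positivity
  calc ((n : ℝ) - 1) ^ 2 / (7 * Q) = 1 / 7 * (((n : ℝ) - 1) ^ 2 / Q) := by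
        field_simp
    _ ≤ a * n / 2 * (((n : ℝ) - 1) ^ 2 / Q) := mul_le_mul_of_nonneg_right h7 h10

theorem ratio_final (n b : ℕ) (hn : 2 ≤ n) (μ : ℝ) (S S' : Finset (Matrix (Fin n) (Fin n) ℝ))
    (hS' : Good n b μ S')
    (hmap : ∀ A ∈ S, ∀ σ : Equiv.Perm (Fin n), (∀ x, σ (σ x) = x) → A + pmat σ ∈ S')
    (hlow : ∀ A ∈ S, ∀ i j, (b : ℝ) ≤ A i j) (hM : 0 ≤ μ - n * b)
    (hlog : 7 * ((n : ℝ) - 1 + 4 * (μ - n * b)) * Real.log ((n : ℝ) ^ 2 + 2) ≤
      ((n : ℝ) - 1) ^ 2) :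
    (n ^ 2 + 2) * S.card ≤ S'.card := by
  have hn2 : (2 : ℝ) ≤ n := by exact_mod_cast hn
  set M := μ - n * b with hMdef
  have hQ0 : 0 < (n : ℝ) - 1 + 4 * M := by linarith
  set w : ℝ := 2 * ((n : ℝ) - 1) / ((n : ℝ) - 1 + 4 * M) with hw
  have hw0 : 0 ≤ w := div_nonneg (by linarith) hQ0.le
  have hw2 : w ≤ 2 := by
    rw [hw, div_le_iff₀ hQ0]
    linarith
  have h1 := count_main n b (by omega) μ S S' hS' hmap hlow _ w rfl hw0 hw2
  have h2 := final_exp n hn M _ w hM rfl hw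
  have h3 : Real.log ((n : ℝ) ^ 2 + 2) ≤ ((n : ℝ) - 1) ^ 2 / (7 * ((n : ℝ) - 1 + 4 * M)) := by
    rw [le_div_iff₀ (by positivity)]
    linarith
  have hpos : (0 : ℝ) < (n : ℝ) ^ 2 + 2 := by positivity
  have h4 : (S.card : ℝ) ≤ S'.card * (1 / ((n : ℝ) ^ 2 + 2)) := by
    refine h1.trans ?_
    apply mul_le_mul_of_nonneg_left _ (Nat.cast_nonneg _)
    calc _ ≤ Real.exp (-(((n : ℝ) - 1) ^ 2 / (7 * ((n : ℝ) - 1 + 4 * M)))) :=
          Real.exp_le_exp.mpr h2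
      _ ≤ Real.exp (-Real.log ((n : ℝ) ^ 2 + 2)) := Real.exp_le_exp.mpr (by linarith)
      _ = 1 / ((n : ℝ) ^ 2 + 2) := by
        rw [Real.exp_neg, Real.exp_log hpos, one_div]
  have h5 : ((n : ℝ) ^ 2 + 2) * S.card ≤ S'.card := by
    calc ((n : ℝ) ^ 2 + 2) * S.card ≤ ((n : ℝ) ^ 2 + 2) * (S'.card * (1 / ((n : ℝ) ^ 2 + 2))) :=
          mul_le_mul_of_nonneg_left h4 hpos.le
      _ = S'.card := by field_simp
  exact_mod_cast h5

theorem lp_good (n m : ℕ) : Good n 0 (m : ℝ) (lp_finite n m).toFinset := by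
  refine ⟨?_, ?_, ?_, ?_, ?_⟩
  · intro A hA
    rw [Set.Finite.mem_toFinset] at hA
    exact hA.2
  · intro A hA
    rw [Set.Finite.mem_toFinset] at hA
    exact lp_symm hA
  · intro A hA i j
    rw [Set.Finite.mem_toFinset] at hA
    rw [Nat.cast_zero]
    exact (lp_props hA).1 i j
  · intro A hA
    rw [Set.Finite.mem_toFinset] at hA
    exact (lp_props hA).2
  · intro A hA i j hij h
    rw [Set.Finite.mem_toFinset] at hA ⊢
    exact sw_lp hij hA (by push_cast at h; linarith)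

theorem li_good (n m : ℕ) (hm : 1 ≤ m) : Good n 1 (m : ℝ) (li_finite n m).toFinset := by
  refine ⟨?_, ?_, ?_, ?_, ?_⟩
  · intro A hA
    rw [Set.Finite.mem_toFinset] at hA
    exact hA.2
  · intro A hA
    rw [Set.Finite.mem_toFinset] at hA
    exact lp_symm (li_sub n m hA)
  · intro A hA i j
    rw [Set.Finite.mem_toFinset] at hA
    rw [Nat.cast_one]
    exact li_pos hm hA i j
  · intro A hA
    rw [Set.Finite.mem_toFinset] at hA
    exact (lp_props (li_sub n m hA)).2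
  · intro A hA i j hij h
    rw [Set.Finite.mem_toFinset] at hA ⊢
    exact sw_li hij hA (by push_cast at h; linarith)

theorem lp_ratio2 (n m : ℕ) (hn : 2 ≤ n)
    (h : 7 * ((n : ℝ) - 1 + 4 * ((m : ℝ) + 1)) * Real.log ((n : ℝ) ^ 2 + 2) ≤
      ((n : ℝ) - 1) ^ 2) :
    (n ^ 2 + 2) * Nat.card (LP n m) ≤ Nat.card (LP n (m + 1)) := by
  have hcS : Nat.card (LP n m) = (lp_finite n m).toFinset.card := by
    rw [Nat.card_coe_set_eq, Set.ncard_eq_toFinset_card _ (lp_finite n m)]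
  have hcS' : Nat.card (LP n (m + 1)) = (lp_finite n (m + 1)).toFinset.card := by
    rw [Nat.card_coe_set_eq, Set.ncard_eq_toFinset_card _ (lp_finite n (m + 1))]
  rw [hcS, hcS']
  apply ratio_final n 0 hn _ _ _ (lp_good n (m + 1))
  · intro A hA σ hσ
    rw [Set.Finite.mem_toFinset] at hA ⊢
    exact lp_add hA hσ
  · exact (lp_good n m).low
  · push_cast
    rw [mul_zero, sub_zero]
    positivity
  · push_cast
    rw [mul_zero, sub_zero]
    exact h

theorem li_ratio2 (n m : ℕ) (hn : 2 ≤ n) (hm1 : 1 ≤ m)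
    (h : 7 * ((n : ℝ) - 1 + 4 * ((m : ℝ) + 1 - n)) * Real.log ((n : ℝ) ^ 2 + 2) ≤
      ((n : ℝ) - 1) ^ 2) :
    (n ^ 2 + 2) * Nat.card (LI n m) ≤ Nat.card (LI n (m + 1)) := by
  rcases Nat.lt_or_ge m n with hmn | hmn
  · have : LI n m = ∅ := by
      rw [Set.eq_empty_iff_forall_notMem]
      intro A hA
      have h1 := li_pos hm1 hA
      have h2 := (lp_props (li_sub n m hA)).2 ⟨0, by omega⟩
      have h3 : ∑ _j : Fin n, (1 : ℝ) ≤ ∑ j, A ⟨0, by omega⟩ j :=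
        Finset.sum_le_sum (fun j _ => h1 _ j)
      rw [h2] at h3
      simp only [Finset.sum_const, Finset.card_univ, Fintype.card_fin, nsmul_eq_mul, mul_one] at h3
      have h4 : n ≤ m := by exact_mod_cast h3
      omega
    rw [this]
    simp
  · have hcS : Nat.card (LI n m) = (li_finite n m).toFinset.card := by
      rw [Nat.card_coe_set_eq, Set.ncard_eq_toFinset_card _ (li_finite n m)]
    have hcS' : Nat.card (LI n (m + 1)) = (li_finite n (m + 1)).toFinset.card := by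
      rw [Nat.card_coe_set_eq, Set.ncard_eq_toFinset_card _ (li_finite n (m + 1))]
    rw [hcS, hcS']
    apply ratio_final n 1 hn _ _ _ (li_good n (m + 1) (by omega))
    · intro A hA σ hσ
      rw [Set.Finite.mem_toFinset] at hA ⊢
      exact li_add hm1 hA hσ
    · exact (li_good n m hm1).low
    · push_cast
      have : (n : ℝ) ≤ m := by exact_mod_cast hmn
      linarith
    · push_cast
      rw [mul_one]
      exact h

end Pool.Agent.H14e
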