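import Pool.Agent.H14e.Inv
import Pool.Agent.H14e.Cnt

namespace Pool.Agent.H14e

open Finset
open scoped Pointwise

/-- The symmetric doubly stochastic matrices. -/
def SymDS (n : ℕ) : Set (Matrix (Fin n) (Fin n) ℝ) :=
  {A | (∀ i j, A i j = A j i) ∧ (∀ i j, 0 ≤ A i j) ∧ (∀ i, ∑ j, A i j = 1) ∧
    (∀ j, ∑ i, A i j = 1)}

/-- The matrices with integer entries. -/
def IntMat (n : ℕ) : Set (Matrix (Fin n) (Fin n) ℝ) := {A | ∀ i j, ∃ k : ℤ, A i j = k}

/-- The polytope `P_n`. -/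
def Pn (n : ℕ) : Set (Matrix (Fin n) (Fin n) ℝ) := convexHull ℝ (SymDS n ∩ IntMat n)

/-- The lattice points of `m P_n`. -/
def LP (n m : ℕ) : Set (Matrix (Fin n) (Fin n) ℝ) := ((m : ℝ) • Pn n) ∩ IntMat n

theorem symDS_convex (n : ℕ) : Convex ℝ (SymDS n) := by
  intro A hA B hB a b ha hb hab
  refine ⟨?_, ?_, ?_, ?_⟩
  · intro i j
    simp only [Matrix.add_apply, Matrix.smul_apply, smul_eq_mul]
    rw [hA.1 i j, hB.1 i j]
  · intro i j
    simp only [Matrix.add_apply, Matrix.smul_apply, smul_eq_mul]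
    have := mul_nonneg ha (hA.2.1 i j)
    have := mul_nonneg hb (hB.2.1 i j)
    linarith
  · intro i
    simp only [Matrix.add_apply, Matrix.smul_apply, smul_eq_mul]
    rw [sum_add_distrib, ← mul_sum, ← mul_sum, hA.2.2.1 i, hB.2.2.1 i]
    linarith
  · intro j
    simp only [Matrix.add_apply, Matrix.smul_apply, smul_eq_mul]
    rw [sum_add_distrib, ← mul_sum, ← mul_sum, hA.2.2.2 j, hB.2.2.2 j]
    linarith

theorem pn_sub (n : ℕ) : Pn n ⊆ SymDS n :=
  convexHull_min Set.inter_subset_left (symDS_convex n)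

theorem lp_props {n m : ℕ} {A : Matrix (Fin n) (Fin n) ℝ} (hA : A ∈ LP n m) :
    (∀ i j, 0 ≤ A i j) ∧ (∀ i, ∑ j, A i j = m) := by
  obtain ⟨⟨B, hB, rfl⟩, _⟩ := hA
  have h := pn_sub n hB
  have hm : (0 : ℝ) ≤ m := Nat.cast_nonneg m
  refine ⟨fun i j => ?_, fun i => ?_⟩
  · simp only [Matrix.smul_apply, smul_eq_mul]
    exact mul_nonneg hm (h.2.1 i j)
  · simp only [Matrix.smul_apply, smul_eq_mul]
    rw [← mul_sum, h.2.2.1 i, mul_one]

theorem lp_finite (n m : ℕ) : (LP n m).Finite := by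
  have hfin : (Set.pi Set.univ (fun _ : Fin n => Set.pi Set.univ
      (fun _ : Fin n => (fun k : ℕ => (k : ℝ)) '' Set.Iic m))).Finite := by
    apply Set.Finite.pi
    intro i
    apply Set.Finite.pi
    intro j
    exact (Set.finite_Iic m).image _
  refine hfin.subset ?_
  intro A hA
  have hp := lp_props hA
  intro i _ j _
  obtain ⟨k, hk⟩ := hA.2 i j
  have h0 : (0 : ℝ) ≤ k := by rw [← hk]; exact hp.1 i j
  have h0' : 0 ≤ k := by exact_mod_cast h0
  have h1 : A i j ≤ m := by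
    rw [← hp.2 i]
    exact single_le_sum (f := fun j => A i j) (fun j _ => hp.1 i j) (mem_univ j)
  obtain ⟨l, rfl⟩ := Int.eq_ofNat_of_zero_le h0'
  refine ⟨l, ?_, ?_⟩
  · rw [hk] at h1
    have : (l : ℝ) ≤ m := by exact_mod_cast h1
    exact_mod_cast this
  · simp only [hk]
    norm_cast

/-- matrix of an involution. -/
def pmat {n : ℕ} (σ : Equiv.Perm (Fin n)) : Matrix (Fin n) (Fin n) ℝ :=
  fun i j => if σ i = j then 1 else 0

theorem pmat_mem {n : ℕ} {σ : Equiv.Perm (Fin n)} (h : ∀ x, σ (σ x) = x) :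
    pmat σ ∈ SymDS n ∩ IntMat n := by
  refine ⟨⟨?_, ?_, ?_, ?_⟩, ?_⟩
  · intro i j
    simp only [pmat]
    have : σ i = j ↔ σ j = i :=
      ⟨fun e => by rw [← e]; exact h i, fun e => by rw [← e]; exact h j⟩
    simp only [this]
  · intro i j
    simp only [pmat]
    split_ifs <;> norm_num
  · intro i
    simp [pmat]
  · intro j
    simp only [pmat]
    rw [Finset.sum_eq_single (σ j)]
    · simp [h j]
    · intro b _ hb
      rw [if_neg]
      intro e
      apply hb
      rw [← e, h b]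
    · intro hh; exact absurd (mem_univ _) hh
  · intro i j
    simp only [pmat]
    split_ifs
    · exact ⟨1, by norm_num⟩
    · exact ⟨0, by norm_num⟩

theorem lp_add {n m : ℕ} {A : Matrix (Fin n) (Fin n) ℝ} (hA : A ∈ LP n m)
    {σ : Equiv.Perm (Fin n)} (h : ∀ x, σ (σ x) = x) : A + pmat σ ∈ LP n (m + 1) := by
  obtain ⟨⟨B, hB, hBA⟩, hI⟩ := hA
  have hσ := pmat_mem h
  refine ⟨?_, ?_⟩
  · have hm : (0 : ℝ) < (m : ℝ) + 1 := by positivity
    refine ⟨((m : ℝ) / (m + 1)) • B + (1 / ((m : ℝ) + 1)) • pmat σ, ?_, ?_⟩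
    · apply (convex_convexHull ℝ (SymDS n ∩ IntMat n)) hB (subset_convexHull ℝ _ hσ)
      · positivity
      · positivity
      · field_simp
    · rw [← hBA]
      simp only [smul_add, smul_smul]
      push_cast
      have e1 : ((m : ℝ) + 1) * (m / (m + 1)) = m := by field_simp
      have e2 : ((m : ℝ) + 1) * (1 / (m + 1)) = 1 := by field_simp
      rw [e1, e2, one_smul]
  · intro i j
    obtain ⟨k, hk⟩ := hI i j
    obtain ⟨l, hl⟩ := hσ.2 i j
    refine ⟨k + l, ?_⟩
    rw [Matrix.add_apply, hk, hl]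
    push_cast
    ring

theorem main_count (n m c : ℕ) (hc : 1 ≤ c) (hm : m + 1 + c ≤ c * c + 1) :
    (Nat.card (LP n m)) *
      (univ.filter (fun σ : Equiv.Perm (Fin n) => ∀ x, σ (σ x) = x)).card
      ≤ Nat.card (LP n (m + 1)) * c ^ n := by
  classical
  set S := (lp_finite n m).toFinset with hS
  set S' := (lp_finite n (m + 1)).toFinset with hS'
  set I := (univ.filter (fun σ : Equiv.Perm (Fin n) => ∀ x, σ (σ x) = x)) with hI
  have hcS : Nat.card (LP n m) = S.card := by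
    rw [hS, Nat.card_coe_set_eq, Set.ncard_eq_toFinset_card _ (lp_finite n m)]
  have hcS' : Nat.card (LP n (m + 1)) = S'.card := by
    rw [hS', Nat.card_coe_set_eq, Set.ncard_eq_toFinset_card _ (lp_finite n (m + 1))]
  rw [hcS, hcS', ← card_product]
  have hmap : ∀ q ∈ S ×ˢ I, q.1 + pmat q.2 ∈ S' := by
    intro q hq
    obtain ⟨h1, h2⟩ := mem_product.mp hq
    rw [hS, Set.Finite.mem_toFinset] at h1
    rw [hI, mem_filter] at h2
    rw [hS', Set.Finite.mem_toFinset]
    exact lp_add h1 h2.2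
  rw [mul_comm]
  apply card_le_mul_card_image_of_maps_to hmap
  intro Z hZ
  rw [hS', Set.Finite.mem_toFinset] at hZ
  have hZp := lp_props hZ
  let N : Fin n → Finset (Fin n) := fun i => univ.filter (fun j => 1 ≤ Z i j)
  have hN : ∀ i, (N i).card ≤ m + 1 := by
    intro i
    have h1 : ((N i).card : ℝ) ≤ ∑ j, Z i j := by
      calc ((N i).card : ℝ) = ∑ j ∈ N i, (1 : ℝ) := by simp
        _ ≤ ∑ j ∈ N i, Z i j := sum_le_sum (fun j hj => (mem_filter.mp hj).2)
        _ ≤ ∑ j, Z i j := sum_le_sum_of_subset_of_nonneg (subset_univ _)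
            (fun j _ _ => hZp.1 i j)
    rw [hZp.2 i] at h1
    exact_mod_cast h1
  have hbound := card_invs_le N c (m + 1) hc hm hN n univ (by simp)
  refine le_trans ?_ hbound
  apply card_le_card_of_injOn (fun q => q.2)
  · intro q hq
    obtain ⟨hq1, hq2⟩ := mem_filter.mp hq
    obtain ⟨h1, h2⟩ := mem_product.mp hq1
    rw [hS, Set.Finite.mem_toFinset] at h1
    rw [hI, mem_filter] at h2
    apply mem_coe.mpr
    refine mem_invs.mpr ⟨h2.2, fun x hx => absurd (mem_univ x) hx, ?_⟩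
    intro x _
    refine mem_filter.mpr ⟨mem_univ _, ?_⟩
    have h3 := (lp_props h1).1 x (q.2 x)
    rw [← hq2, Matrix.add_apply]
    simp only [pmat, if_true]
    linarith
  · intro q hq q' hq' he
    obtain ⟨_, hq2⟩ := mem_filter.mp (mem_coe.mp hq)
    obtain ⟨_, hq2'⟩ := mem_filter.mp (mem_coe.mp hq')
    have he' : q.2 = q'.2 := he
    have h3 : q.1 + pmat q.2 = q'.1 + pmat q'.2 := by rw [hq2, hq2']
    rw [he'] at h3
    exact Prod.ext (add_right_cancel h3) he'

end Pool.Agent.H14e
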