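import Mathlib

namespace Pool.Agent.H14e

open Finset

variable {α : Type*} [Fintype α] [DecidableEq α]

/-- involutions supported in `V` with `σ x` allowed at `x`. -/
def invs (N : α → Finset α) (V : Finset α) : Finset (Equiv.Perm α) :=
  univ.filter (fun σ => (∀ x, σ (σ x) = x) ∧ (∀ x, x ∉ V → σ x = x) ∧ (∀ x ∈ V, σ x ∈ N x))

theorem mem_invs {N : α → Finset α} {V : Finset α} {σ : Equiv.Perm α} :
    σ ∈ invs N V ↔ (∀ x, σ (σ x) = x) ∧ (∀ x, x ∉ V → σ x = x) ∧ (∀ x ∈ V, σ x ∈ N x) := by
  simp [invs]

theorem card_invs_le (N : α → Finset α) (c m : ℕ) (hc : 1 ≤ c) (hm : m + c ≤ c * c + 1)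
    (hN : ∀ x, (N x).card ≤ m) :
    ∀ (s : ℕ) (V : Finset α), V.card = s → (invs N V).card ≤ c ^ s := by
  intro s
  induction s using Nat.strong_induction_on with
  | _ s ih =>
    intro V hV
    rcases Nat.eq_zero_or_pos s with h0 | hpos
    · subst h0
      have hVe : V = ∅ := card_eq_zero.mp hV
      subst hVe
      have : invs N ∅ ⊆ {1} := by
        intro σ hσ
        rw [mem_invs] at hσ
        rw [mem_singleton]
        ext x
        simp [hσ.2.1 x (by simp)]
      calc (invs N ∅).card ≤ ({1} : Finset (Equiv.Perm α)).card := card_le_card this
        _ = c ^ 0 := by simp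
    · obtain ⟨v, hv⟩ : V.Nonempty := card_pos.mp (by omega)
      -- pieces
      let A := (invs N V).filter (fun σ => σ v = v)
      let I := ((N v).erase v) ∩ (V.erase v)
      let B := fun u => (invs N V).filter (fun σ => σ v = u)
      have hcov : invs N V ⊆ A ∪ I.biUnion B := by
        intro σ hσ
        have hσ' := mem_invs.mp hσ
        by_cases h : σ v = v
        · exact mem_union_left _ (mem_filter.mpr ⟨hσ, h⟩)
        · refine mem_union_right _ (mem_biUnion.mpr ⟨σ v, ?_, mem_filter.mpr ⟨hσ, rfl⟩⟩)
          refine mem_inter.mpr ⟨mem_erase.mpr ⟨h, hσ'.2.2 v hv⟩, mem_erase.mpr ⟨h, ?_⟩⟩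
          by_contra hcon
          have := hσ'.2.1 (σ v) hcon
          rw [hσ'.1 v] at this
          exact h this.symm
      have hA1 : A.card ≤ c ^ (s - 1) := by
        have hsub : A ⊆ invs N (V.erase v) := by
          intro σ hσ
          obtain ⟨hσ1, hσ2⟩ := mem_filter.mp hσ
          have h := mem_invs.mp hσ1
          refine mem_invs.mpr ⟨h.1, ?_, ?_⟩
          · intro x hx
            by_cases hxv : x = v
            · rw [hxv]; exact hσ2
            · exact h.2.1 x (fun hxV => hx (mem_erase.mpr ⟨hxv, hxV⟩))
          · intro x hx
            exact h.2.2 x (mem_of_mem_erase hx)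
        calc A.card ≤ (invs N (V.erase v)).card := card_le_card hsub
          _ ≤ c ^ (s - 1) := ih (s - 1) (by omega) _ (by rw [card_erase_of_mem hv, hV])
      have hA0 : v ∉ N v → A.card = 0 := by
        intro hvN
        rw [card_eq_zero]
        ext σ
        simp only [notMem_empty, iff_false]
        intro hσ
        obtain ⟨hσ1, hσ2⟩ := mem_filter.mp hσ
        have h := (mem_invs.mp hσ1).2.2 v hv
        rw [hσ2] at h
        exact hvN h
      have hB : ∀ u ∈ I, (B u).card ≤ c ^ (s - 2) := by
        intro u hu
        obtain ⟨hu1, hu2⟩ := mem_inter.mp hu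
        have huv : u ≠ v := (mem_erase.mp hu1).1
        have huV : u ∈ V := (mem_erase.mp hu2).2
        have hinj : (B u).card ≤ (invs N ((V.erase v).erase u)).card := by
          apply card_le_card_of_injOn (fun σ => σ * Equiv.swap v u)
          · intro σ hσ
            obtain ⟨hσ1, hσ2⟩ := mem_filter.mp hσ
            have h := mem_invs.mp hσ1
            have hσu : σ u = v := by rw [← hσ2]; exact h.1 v
            apply mem_coe.mpr
            refine mem_invs.mpr ⟨?_, ?_, ?_⟩
            · intro x
              simp only [Equiv.Perm.mul_apply]
              by_cases hxv : x = v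
              · subst hxv; simp [hσu]
              · by_cases hxu : x = u
                · subst hxu; simp [hσ2]
                · rw [Equiv.swap_apply_of_ne_of_ne hxv hxu]
                  rw [Equiv.swap_apply_of_ne_of_ne, h.1]
                  · intro h'; apply hxu
                    have := h.1 x; rw [h', hσ2] at this; exact this.symm
                  · intro h'; apply hxv
                    have := h.1 x; rw [h', hσu] at this; exact this.symm
            · intro x hx
              simp only [Equiv.Perm.mul_apply]
              by_cases hxv : x = v
              · subst hxv; simp [hσu]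
              · by_cases hxu : x = u
                · subst hxu; simp [hσ2]
                · rw [Equiv.swap_apply_of_ne_of_ne hxv hxu]
                  apply h.2.1
                  intro hxV
                  exact hx (mem_erase.mpr ⟨hxu, mem_erase.mpr ⟨hxv, hxV⟩⟩)
            · intro x hx
              obtain ⟨hxu, hx'⟩ := mem_erase.mp hx
              obtain ⟨hxv, hxV⟩ := mem_erase.mp hx'
              simp only [Equiv.Perm.mul_apply]
              rw [Equiv.swap_apply_of_ne_of_ne hxv hxu]
              exact h.2.2 x hxV
          · intro σ _ τ _ h
            exact mul_right_cancel h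
        calc (B u).card ≤ (invs N ((V.erase v).erase u)).card := hinj
          _ ≤ c ^ (s - 2) := by
            apply ih (s - 2) (by omega)
            rw [card_erase_of_mem (mem_erase.mpr ⟨huv, huV⟩), card_erase_of_mem hv, hV]
            omega
      have hI2 : I.card * c ^ (s - 2) ≤ (((N v).erase v).card) * c ^ (s - 2) :=
        Nat.mul_le_mul_right _ (card_le_card inter_subset_left)
      have htot : (invs N V).card ≤ A.card + I.card * c ^ (s - 2) := by
        calc (invs N V).card ≤ (A ∪ I.biUnion B).card := card_le_card hcov
          _ ≤ A.card + (I.biUnion B).card := card_union_le _ _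
          _ ≤ A.card + I.card * c ^ (s - 2) := by
            apply Nat.add_le_add_left
            exact card_biUnion_le_card_mul _ _ _ hB
      rcases Nat.lt_or_ge s 2 with hs | hs
      · have hs1 : s = 1 := by omega
        subst hs1
        have hIe : I.card = 0 := by
          rw [card_eq_zero]
          have : V.erase v = ∅ := by
            rw [← card_eq_zero, card_erase_of_mem hv, hV]
          simp [I, this]
        rw [hIe] at htot
        have h1 : A.card ≤ 1 := by simpa using hA1
        have : c ^ 1 = c := pow_one c
        omega
      · obtain ⟨t, rfl⟩ : ∃ t, s = t + 2 := ⟨s - 2, by omega⟩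
        have e1 : t + 2 - 1 = t + 1 := by omega
        have e2 : t + 2 - 2 = t := by omega
        rw [e1] at hA1
        rw [e2] at htot hI2
        by_cases hvN : v ∈ N v
        · have hcard : ((N v).erase v).card + 1 ≤ m := by
            rw [card_erase_of_mem hvN]
            have := hN v
            have : 0 < (N v).card := card_pos.mpr ⟨v, hvN⟩
            omega
          have hk : ((N v).erase v).card + c ≤ c * c := by omega
          calc (invs N V).card ≤ c ^ (t + 1) + ((N v).erase v).card * c ^ t := by omega
            _ = (((N v).erase v).card + c) * c ^ t := by ring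
            _ ≤ (c * c) * c ^ t := Nat.mul_le_mul_right _ hk
            _ = c ^ (t + 2) := by ring
        · have h0 := hA0 hvN
          have hk : ((N v).erase v).card ≤ c * c := by
            have := card_le_card (erase_subset v (N v))
            have := hN v
            omega
          calc (invs N V).card ≤ ((N v).erase v).card * c ^ t := by omega
            _ ≤ (c * c) * c ^ t := Nat.mul_le_mul_right _ hk
            _ = c ^ (t + 2) := by ring

end Pool.Agent.H14e
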