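import Pool.Agent.H14e.Rel

namespace Pool.Agent.H14e

open Finset
open scoped Pointwise

theorem ii_seg {E : Type*} [TopologicalSpace E] [AddCommGroup E] [Module ℝ E]
    [ContinuousAdd E] [ContinuousSub E] [ContinuousConstSMul ℝ E] {C : Set E} (hC : Convex ℝ C)
    {y z : E} (hy : y ∈ intrinsicInterior ℝ C) (hz : z ∈ C) {t : ℝ} (h0 : 0 ≤ t) (h1 : t < 1) :
    (1 - t) • y + t • z ∈ intrinsicInterior ℝ C := by
  have hyC : y ∈ C := intrinsicInterior_subset hy
  rw [ii_iff] at hy ⊢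
  obtain ⟨_, U, hU, hyU, hUC⟩ := hy
  have ht : (1 - t) ≠ 0 := by linarith
  refine ⟨subset_affineSpan ℝ _ (hC hyC hz (by linarith) h0 (by ring)),
    {w | (1 - t)⁻¹ • (w - t • z) ∈ U}, ?_, ?_, ?_⟩
  · exact hU.preimage ((continuous_id.sub continuous_const).const_smul _)
  · have : (1 - t)⁻¹ • ((1 - t) • y + t • z - t • z) = y := by
      rw [add_sub_cancel_right, smul_smul, inv_mul_cancel₀ ht, one_smul]
    change (1 - t)⁻¹ • ((1 - t) • y + t • z - t • z) ∈ U
    rw [this]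
    exact hyU
  · intro w hw hws
    have hv : (1 - t)⁻¹ • (w - t • z) ∈ affineSpan ℝ C := by
      have := AffineMap.lineMap_mem ((1 - t)⁻¹) (subset_affineSpan ℝ _ hz) hws
      have e : (1 - t)⁻¹ • (w - t • z) = AffineMap.lineMap z w ((1 - t)⁻¹) := by
        rw [AffineMap.lineMap_apply_module']
        have e2 : (1 - t)⁻¹ * t = (1 - t)⁻¹ - 1 := by
          field_simp
          ring
        rw [smul_sub, smul_sub, smul_smul, e2, sub_smul, one_smul]
        abel
      rw [e]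
      exact this
    have h2 := hUC _ hw hv
    have h3 := hC h2 hz (show 0 ≤ 1 - t by linarith) h0 (by ring)
    rw [smul_smul, mul_inv_cancel₀ ht, one_smul, sub_add_cancel] at h3
    exact h3

theorem ii_smul {n : ℕ} {m : ℕ} (hm : 1 ≤ m) {y : Matrix (Fin n) (Fin n) ℝ}
    (hy : y ∈ intrinsicInterior ℝ (Pn n)) :
    (m : ℝ) • y ∈ intrinsicInterior ℝ ((m : ℝ) • Pn n) := by
  have hyC : y ∈ Pn n := intrinsicInterior_subset hy
  rw [ii_iff] at hy ⊢
  obtain ⟨_, U, hU, hyU, hUC⟩ := hy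
  have hm0 : (m : ℝ) ≠ 0 := by positivity
  refine ⟨subset_affineSpan ℝ _ ⟨y, hyC, rfl⟩, {w | (m : ℝ)⁻¹ • w ∈ U}, ?_, ?_, ?_⟩
  · exact hU.preimage (continuous_id.const_smul ((m : ℝ)⁻¹))
  · have : (m : ℝ)⁻¹ • ((m : ℝ) • y) = y := by
      rw [smul_smul, inv_mul_cancel₀ hm0, one_smul]
    change (m : ℝ)⁻¹ • ((m : ℝ) • y) ∈ U
    rw [this]
    exact hyU
  · intro w hw hws
    rw [← AffineSubspace.smul_span] at hws
    obtain ⟨a, ha, rfl⟩ := hws
    have hw' : (m : ℝ)⁻¹ • ((m : ℝ) • a) ∈ U := hw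
    rw [smul_smul, inv_mul_cancel₀ hm0, one_smul] at hw'
    exact ⟨a, hUC _ hw' ha, rfl⟩

theorem pn_convex (n : ℕ) : Convex ℝ (Pn n) := convex_convexHull ℝ _

/-- conjugation by a permutation -/
def cj {n : ℕ} (τ : Equiv.Perm (Fin n)) (B : Matrix (Fin n) (Fin n) ℝ) :
    Matrix (Fin n) (Fin n) ℝ := fun i j => B (τ i) (τ j)

theorem cj_gen {n : ℕ} (τ : Equiv.Perm (Fin n)) {B : Matrix (Fin n) (Fin n) ℝ}
    (hB : B ∈ SymDS n ∩ IntMat n) : cj τ B ∈ SymDS n ∩ IntMat n := by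
  obtain ⟨⟨h1, h2, h3, h4⟩, h5⟩ := hB
  refine ⟨⟨fun i j => h1 _ _, fun i j => h2 _ _, fun i => ?_, fun j => ?_⟩, fun i j => h5 _ _⟩
  · rw [← h3 (τ i)]
    exact Equiv.sum_comp τ (fun j => B (τ i) j)
  · rw [← h4 (τ j)]
    exact Equiv.sum_comp τ (fun i => B i (τ j))

/-- conjugation as a linear map -/
def cjL {n : ℕ} (τ : Equiv.Perm (Fin n)) :
    Matrix (Fin n) (Fin n) ℝ →ₗ[ℝ] Matrix (Fin n) (Fin n) ℝ where
  toFun := cj τ
  map_add' _ _ := rfl
  map_smul' _ _ := rfl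

theorem cj_mem {n : ℕ} (τ : Equiv.Perm (Fin n)) {B : Matrix (Fin n) (Fin n) ℝ}
    (hB : B ∈ Pn n) : cj τ B ∈ Pn n := by
  have h1 : cjL τ B ∈ cjL τ '' (convexHull ℝ (SymDS n ∩ IntMat n)) := ⟨B, hB, rfl⟩
  rw [LinearMap.image_convexHull] at h1
  refine convexHull_mono ?_ h1
  rintro _ ⟨A, hA, rfl⟩
  exact cj_gen τ hA

/-- the average over all conjugates -/
noncomputable def av {n : ℕ} (B : Matrix (Fin n) (Fin n) ℝ) : Matrix (Fin n) (Fin n) ℝ :=
  ∑ τ : Equiv.Perm (Fin n), (1 / (n.factorial : ℝ)) • cj τ B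

theorem av_apply {n : ℕ} (B : Matrix (Fin n) (Fin n) ℝ) (i j : Fin n) :
    av B i j = (1 / (n.factorial : ℝ)) * ∑ τ : Equiv.Perm (Fin n), B (τ i) (τ j) := by
  simp only [av, Matrix.sum_apply, Matrix.smul_apply, smul_eq_mul, cj, mul_sum]

theorem sum_weights (n : ℕ) : ∑ _τ : Equiv.Perm (Fin n), (1 / (n.factorial : ℝ)) = 1 := by
  rw [sum_const, card_univ, Fintype.card_perm, Fintype.card_fin, nsmul_eq_mul]
  field_simp

theorem av_mem {n : ℕ} {B : Matrix (Fin n) (Fin n) ℝ} (hB : B ∈ Pn n) : av B ∈ Pn n := by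
  apply (pn_convex n).sum_mem
  · intro τ _; positivity
  · exact sum_weights n
  · intro τ _; exact cj_mem τ hB

theorem av_inv {n : ℕ} (B : Matrix (Fin n) (Fin n) ℝ) (ρ : Equiv.Perm (Fin n)) (i j : Fin n) :
    av B (ρ i) (ρ j) = av B i j := by
  rw [av_apply, av_apply]
  congr 1
  exact Equiv.sum_comp (Equiv.mulRight ρ) (fun τ : Equiv.Perm (Fin n) => B (τ i) (τ j))

/-- the invariant matrix with diagonal entries `a` -/
noncomputable def kk (n : ℕ) (a : ℝ) : Matrix (Fin n) (Fin n) ℝ :=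
  fun i j => if i = j then a else (1 - a) / ((n : ℝ) - 1)

theorem two_trans {n : ℕ} {i j k l : Fin n} (hij : i ≠ j) (hkl : k ≠ l) :
    ∃ ρ : Equiv.Perm (Fin n), ρ i = k ∧ ρ j = l := by
  refine ⟨Equiv.swap (Equiv.swap i k j) l * Equiv.swap i k, ?_, ?_⟩
  · rw [Equiv.Perm.mul_apply, Equiv.swap_apply_left]
    apply Equiv.swap_apply_of_ne_of_ne
    · intro h
      have h1 : Equiv.swap i k i = Equiv.swap i k j := by rw [Equiv.swap_apply_left]; exact h
      exact hij ((Equiv.swap i k).injective h1)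
    · exact hkl
  · rw [Equiv.Perm.mul_apply, Equiv.swap_apply_left]

theorem av_eq {n : ℕ} (hn : 2 ≤ n) {B : Matrix (Fin n) (Fin n) ℝ} (hB : B ∈ Pn n) :
    av B = kk n ((∑ i, B i i) / n) := by
  have hdiag : ∀ i j, av B i i = av B j j := by
    intro i j
    have h := av_inv B (Equiv.swap i j) i i
    rw [Equiv.swap_apply_left] at h
    exact h.symm
  have htr : ∑ i, av B i i = ∑ i, B i i := by
    simp only [av_apply]
    rw [← mul_sum, sum_comm]
    have : ∀ τ : Equiv.Perm (Fin n), ∑ i, B (τ i) (τ i) = ∑ i, B i i :=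
      fun τ => Equiv.sum_comp τ (fun i => B i i)
    rw [sum_congr rfl (fun τ _ => this τ), sum_const, card_univ, Fintype.card_perm, Fintype.card_fin,
      nsmul_eq_mul]
    field_simp
  have hd : ∀ i, av B i i = (∑ i, B i i) / n := by
    intro i
    have h1 : ∑ j, av B j j = n * av B i i := by
      rw [sum_congr rfl (fun j _ => hdiag j i), sum_const, card_univ, Fintype.card_fin,
        nsmul_eq_mul]
    rw [htr] at h1
    have : (n : ℝ) ≠ 0 := by positivity
    rw [h1]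
    field_simp
  have hrow := (pn_sub n (av_mem hB)).2.2.1
  ext i j
  unfold kk
  by_cases hij : i = j
  · subst hij
    rw [if_pos rfl]
    exact hd i
  · rw [if_neg hij]
    have hoff : ∀ k, k ≠ i → av B i k = av B i j := by
      intro k hk
      obtain ⟨ρ, h1, h2⟩ := two_trans (Ne.symm hk) hij
      have h3 := av_inv B ρ i k
      rw [h1, h2] at h3
      exact h3.symm
    have h1 := hrow i
    rw [← add_sum_erase _ _ (mem_univ i), sum_congr rfl (fun k hk => hoff k (mem_erase.mp hk).1),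
      sum_const, card_erase_of_mem (mem_univ i), card_univ, Fintype.card_fin, nsmul_eq_mul,
      hd i] at h1
    have hn1 : ((n : ℝ) - 1) ≠ 0 := by
      have : (2 : ℝ) ≤ n := by exact_mod_cast hn
      intro h; linarith
    rw [Nat.cast_sub (by omega), Nat.cast_one] at h1
    rw [eq_div_iff hn1]
    linarith

end Pool.Agent.H14e
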