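import Pool.Agent.H14e.Sw

namespace Pool.Agent.H14e

open Finset
open scoped Pointwise

/-- the pairs `i < j` -/
def T0 (n : ℕ) : Finset (Fin n × Fin n) := univ.filter (fun p => p.1 < p.2)

theorem card_T0 (n : ℕ) : 2 * (T0 n).card + n = n * n := by
  have h1 : (univ.filter (fun p : Fin n × Fin n => p.1 < p.2)).card +
      (univ.filter (fun p : Fin n × Fin n => p.2 < p.1)).card +
      (univ.filter (fun p : Fin n × Fin n => p.1 = p.2)).card = n * n := by
    rw [card_filter, card_filter, card_filter, ← sum_add_distrib, ← sum_add_distrib]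
    have : ∀ p ∈ (univ : Finset (Fin n × Fin n)),
        (((if p.1 < p.2 then 1 else 0) + (if p.2 < p.1 then 1 else 0)) +
          (if p.1 = p.2 then 1 else 0) : ℕ) = 1 := by
      intro p _
      rcases lt_trichotomy p.1 p.2 with h | h | h
      · simp [h, not_lt_of_gt h, ne_of_lt h]
      · simp [h]
      · simp [h, not_lt_of_gt h, ne_of_gt h]
    rw [sum_congr rfl this]
    simp
  have h2 : (univ.filter (fun p : Fin n × Fin n => p.2 < p.1)).card =
      (univ.filter (fun p : Fin n × Fin n => p.1 < p.2)).card := by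
    rw [card_filter, card_filter]
    exact Equiv.sum_comp (Equiv.prodComm (Fin n) (Fin n))
      (fun p : Fin n × Fin n => if p.1 < p.2 then 1 else 0)
  have h3 : (univ.filter (fun p : Fin n × Fin n => p.1 = p.2)).card = n := by
    rw [card_filter, Fintype.sum_prod_type]
    simp
  unfold T0
  omega

theorem sum_sym {n : ℕ} (f : Fin n → Fin n → ℝ) (h0 : ∀ i j, 0 ≤ f i j)
    (hs : ∀ i j, f i j = f j i) : 2 * ∑ p ∈ T0 n, f p.1 p.2 ≤ ∑ i, ∑ j, f i j := by
  have h1 : ∑ p ∈ T0 n, f p.1 p.2 = ∑ p : Fin n × Fin n, if p.1 < p.2 then f p.1 p.2 else 0 := by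
    rw [T0, sum_filter]
  have h2 : ∑ p : Fin n × Fin n, (if p.1 < p.2 then f p.1 p.2 else 0) =
      ∑ p : Fin n × Fin n, (if p.2 < p.1 then f p.1 p.2 else 0) := by
    rw [← Equiv.sum_comp (Equiv.prodComm (Fin n) (Fin n))]
    apply sum_congr rfl
    intro p _
    simp only [Equiv.prodComm_apply, Prod.fst_swap, Prod.snd_swap]
    rw [hs p.2 p.1]
  have h3 : 2 * ∑ p ∈ T0 n, f p.1 p.2 = ∑ p : Fin n × Fin n,
      ((if p.1 < p.2 then f p.1 p.2 else 0) + (if p.2 < p.1 then f p.1 p.2 else 0)) := by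
    rw [sum_add_distrib, ← h2, ← h1]
    ring
  rw [h3, ← Fintype.sum_prod_type']
  apply sum_le_sum
  intro p _
  have := h0 p.1 p.2
  rcases lt_trichotomy p.1 p.2 with h | h | h
  · simp [h, not_lt_of_gt h]
  · simp [h]; rw [← h]; simpa [h] using this
  · simp [h, not_lt_of_gt h]

theorem count_sum (n b : ℕ) (S S' : Finset (Matrix (Fin n) (Fin n) ℝ))
    (hmap : ∀ A ∈ S, ∀ σ : Equiv.Perm (Fin n), (∀ x, σ (σ x) = x) → A + pmat σ ∈ S')
    (hlow : ∀ A ∈ S, ∀ i j, (b : ℝ) ≤ A i j) (hsym : ∀ A ∈ S', ∀ i j, A i j = A j i) :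
    (S.card : ℝ) ≤ ∑ Z ∈ S', Real.exp (-((∑ x ∈ (univ : Finset (Fin n)),
      dg (fun i => univ.filter (fun j => (b : ℝ) + 1 ≤ Z i j)) univ x : ℕ) : ℝ) / (6 * n)) := by
  classical
  set I := (univ.filter (fun σ : Equiv.Perm (Fin n) => ∀ x, σ (σ x) = x)) with hI
  have hmap' : ∀ q ∈ S ×ˢ I, q.1 + pmat q.2 ∈ S' := by
    intro q hq
    obtain ⟨h1, h2⟩ := mem_product.mp hq
    rw [hI, mem_filter] at h2
    exact hmap _ h1 _ h2.2
  have hfib : ∀ Z ∈ S', (((S ×ˢ I).filter (fun q => q.1 + pmat q.2 = Z)).card : ℝ) ≤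
      T n * Real.exp (-((∑ x ∈ (univ : Finset (Fin n)),
      dg (fun i => univ.filter (fun j => (b : ℝ) + 1 ≤ Z i j)) univ x : ℕ) : ℝ) / (6 * n)) := by
    intro Z hZ
    let N : Fin n → Finset (Fin n) := fun i => univ.filter (fun j => (b : ℝ) + 1 ≤ Z i j)
    have hNs : ∀ x y, y ∈ N x ↔ x ∈ N y := by
      intro x y
      simp only [N, mem_filter, mem_univ, true_and]
      rw [hsym Z hZ x y]
    have hup := invs_upper N hNs n n univ (by simp) le_rfl
    have hle : ((S ×ˢ I).filter (fun q => q.1 + pmat q.2 = Z)).card ≤ (invs N univ).card := by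
      apply card_le_card_of_injOn (fun q => q.2)
      · intro q hq
        obtain ⟨hq1, hq2⟩ := mem_filter.mp hq
        obtain ⟨h1, h2⟩ := mem_product.mp hq1
        rw [hI, mem_filter] at h2
        apply mem_coe.mpr
        refine mem_invs.mpr ⟨h2.2, fun x hx => absurd (mem_univ x) hx, ?_⟩
        intro x _
        refine mem_filter.mpr ⟨mem_univ _, ?_⟩
        have h3 := hlow _ h1 x (q.2 x)
        rw [← hq2, Matrix.add_apply]
        simp only [pmat, if_true]
        linarith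
      · intro q hq q' hq' he
        obtain ⟨_, hq2⟩ := mem_filter.mp (mem_coe.mp hq)
        obtain ⟨_, hq2'⟩ := mem_filter.mp (mem_coe.mp hq')
        have he' : q.2 = q'.2 := he
        have h3 : q.1 + pmat q.2 = q'.1 + pmat q'.2 := by rw [hq2, hq2']
        rw [he'] at h3
        exact Prod.ext (add_right_cancel h3) he'
    calc (((S ×ˢ I).filter (fun q => q.1 + pmat q.2 = Z)).card : ℝ)
        ≤ ((invs N univ).card : ℝ) := by exact_mod_cast hle
      _ ≤ _ := hup
  have hTI : (T n : ℝ) ≤ I.card := by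
    have h1 := T_le_invs n (univ : Finset (Fin n)) (by simp)
    have h2 : invs (fun _ => univ) (univ : Finset (Fin n)) ⊆ I := by
      intro σ hσ
      exact mem_filter.mpr ⟨mem_univ _, (mem_invs.mp hσ).1⟩
    exact_mod_cast h1.trans (card_le_card h2)
  have h1 := card_eq_sum_card_fiberwise hmap'
  rw [card_product] at h1
  have hT0 : (0 : ℝ) < T n := by exact_mod_cast T_pos n
  have h2 : (S.card : ℝ) * T n ≤ (∑ Z ∈ S', Real.exp (-((∑ x ∈ (univ : Finset (Fin n)),
      dg (fun i => univ.filter (fun j => (b : ℝ) + 1 ≤ Z i j)) univ x : ℕ) : ℝ) / (6 * n))) *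
      T n := by
    calc (S.card : ℝ) * T n ≤ (S.card : ℝ) * I.card :=
          mul_le_mul_of_nonneg_left hTI (Nat.cast_nonneg _)
      _ = ((S.card * I.card : ℕ) : ℝ) := by push_cast; rfl
      _ = ∑ Z ∈ S', (((S ×ˢ I).filter (fun q => q.1 + pmat q.2 = Z)).card : ℝ) := by
        rw [h1]; push_cast; rfl
      _ ≤ _ := sum_le_sum hfib
      _ = _ := by rw [sum_mul]; exact sum_congr rfl (fun _ _ => mul_comm _ _)
  exact le_of_mul_le_mul_right h2 hT0

theorem zero_count {n b : ℕ} {μ : ℝ} {S : Finset (Matrix (Fin n) (Fin n) ℝ)}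
    (hS : Good n b μ S) {Z : Matrix (Fin n) (Fin n) ℝ} (hZ : Z ∈ S) :
    2 * (((T0 n).filter (fun p => ps b Z p = 0)).card : ℝ) ≤
      ((∑ x ∈ (univ : Finset (Fin n)),
        dg (fun i => univ.filter (fun j => (b : ℝ) + 1 ≤ Z i j)) univ x : ℕ) : ℝ) := by
  classical
  let f : Fin n → Fin n → ℝ := fun i j => if i ≠ j ∧ ¬ ((b : ℝ) + 1 ≤ Z i j) then 1 else 0
  have h1 := sum_sym f (fun i j => by simp only [f]; split_ifs <;> norm_num) (fun i j => by
    simp only [f]
    rw [hS.sym Z hZ i j]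
    congr 1
    rw [ne_comm])
  have h2 : ∑ p ∈ T0 n, f p.1 p.2 = (((T0 n).filter (fun p => ps b Z p = 0)).card : ℝ) := by
    rw [card_filter, Nat.cast_sum]
    apply sum_congr rfl
    intro p hp
    have hlt : p.1 < p.2 := (mem_filter.mp hp).2
    have hv := ps_val hS hZ hlt
    have hpe : ps b Z p = ps b Z (p.1, p.2) := rfl
    rw [hpe]
    by_cases h0 : ps b Z (p.1, p.2) = 0
    · rw [h0, Nat.cast_zero] at hv
      simp only [f]
      rw [if_pos ⟨ne_of_lt hlt, by linarith⟩, if_pos h0, Nat.cast_one]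
    · have h3 : (1 : ℝ) ≤ ps b Z (p.1, p.2) := by
        have : 1 ≤ ps b Z (p.1, p.2) := by omega
        exact_mod_cast this
      simp only [f]
      rw [if_neg (fun hc => hc.2 (by linarith)), if_neg h0, Nat.cast_zero]
  have h3 : ∑ i, ∑ j, f i j = ((∑ x ∈ (univ : Finset (Fin n)),
        dg (fun i => univ.filter (fun j => (b : ℝ) + 1 ≤ Z i j)) univ x : ℕ) : ℝ) := by
    push_cast
    apply sum_congr rfl
    intro i _
    have e : (univ.erase i) \ (univ.filter (fun j => (b : ℝ) + 1 ≤ Z i j)) =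
        univ.filter (fun j => i ≠ j ∧ ¬ ((b : ℝ) + 1 ≤ Z i j)) := by
      ext j
      simp only [mem_sdiff, mem_erase, mem_filter, mem_univ, true_and, and_true]
      rw [ne_comm]
    unfold dg
    rw [e, card_filter, Nat.cast_sum]
    apply sum_congr rfl
    intro j _
    simp only [f]
    split_ifs <;> simp
  rw [h2, h3] at h1
  exact h1

theorem off_sum {n b : ℕ} {μ : ℝ} {S : Finset (Matrix (Fin n) (Fin n) ℝ)}
    (hS : Good n b μ S) {Z : Matrix (Fin n) (Fin n) ℝ} (hZ : Z ∈ S) :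
    ∑ p ∈ T0 n, (ps b Z p : ℝ) ≤ n * (μ - n * b) / 2 := by
  have h1 := sum_sym (fun i j => Z i j - b) (fun i j => by
    have := hS.low Z hZ i j
    linarith) (fun i j => by rw [hS.sym Z hZ i j])
  have h2 : ∑ p ∈ T0 n, (ps b Z p : ℝ) = ∑ p ∈ T0 n, (Z p.1 p.2 - b) := by
    apply sum_congr rfl
    intro p hp
    exact ps_val hS hZ (mem_filter.mp hp).2
  have h3 : ∑ i : Fin n, ∑ j, (Z i j - (b : ℝ)) = n * (μ - n * b) := by
    have : ∀ i : Fin n, ∑ j, (Z i j - (b : ℝ)) = μ - n * b := by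
      intro i
      rw [sum_sub_distrib, hS.row Z hZ i]
      simp
    rw [sum_congr rfl (fun i _ => this i)]
    rw [sum_const, card_univ, Fintype.card_fin, nsmul_eq_mul]
  rw [h3, ← h2] at h1
  linarith

theorem count_main (n b : ℕ) (hn : 0 < n) (μ : ℝ) (S S' : Finset (Matrix (Fin n) (Fin n) ℝ))
    (hS' : Good n b μ S')
    (hmap : ∀ A ∈ S, ∀ σ : Equiv.Perm (Fin n), (∀ x, σ (σ x) = x) → A + pmat σ ∈ S')
    (hlow : ∀ A ∈ S, ∀ i j, (b : ℝ) ≤ A i j) (a w : ℝ)
    (ha : a = 1 - Real.exp (-(1 / (3 * n)))) (hw0 : 0 ≤ w) (hw : w ≤ 2) :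
    (S.card : ℝ) ≤ S'.card * Real.exp (a * w ^ 2 * (n * (μ - n * b) / 2) -
      a * (w - w ^ 2 / 4) * (n * (n - 1) / 2)) := by
  classical
  have hn0 : (0 : ℝ) < n := by exact_mod_cast hn
  have hn1 : (1 : ℝ) ≤ n := by exact_mod_cast hn
  set l : ℝ := 1 / (3 * n) with hl
  have hl0 : 0 ≤ l := by positivity
  have hl1 : l ≤ 1 / 3 := by
    rw [hl]
    apply one_div_le_one_div_of_le (by norm_num)
    linarith
  have ha0 : 0 ≤ a := by
    rw [ha, sub_nonneg]
    exact Real.exp_le_one_iff.mpr (by linarith)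
  have ha1 : a ≤ 1 / 3 := by
    have := Real.add_one_le_exp (-l)
    linarith
  set θ := a * w ^ 2 with hθ
  set δ := a * (w - w ^ 2 / 4) with hδ
  have hδ1 : δ ≤ 1 / 3 := by
    have h1 : w - w ^ 2 / 4 ≤ 1 := by nlinarith [sq_nonneg (1 - w / 2)]
    have h2 : a * (w - w ^ 2 / 4) ≤ a * 1 := mul_le_mul_of_nonneg_left h1 ha0
    linarith
  have hgw0 : ∀ j, 0 ≤ gw a θ j := by
    intro j
    unfold gw
    split_ifs
    · linarith
    · exact (Real.exp_pos _).le
  have hgwe : ∀ j : ℕ, gw a θ j = Real.exp (-((if j = 0 then l else 0) + θ * j)) := by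
    intro j
    unfold gw
    split_ifs with h
    · subst h
      rw [ha]
      simp
    · rw [zero_add]
  have hterm : ∀ Z ∈ S', Real.exp (-((∑ x ∈ (univ : Finset (Fin n)),
      dg (fun i => univ.filter (fun j => (b : ℝ) + 1 ≤ Z i j)) univ x : ℕ) : ℝ) / (6 * n)) ≤
      Real.exp (θ * (n * (μ - n * b) / 2)) * ∏ e ∈ T0 n, gw a θ (ps b Z e) := by
    intro Z hZ
    have h1 := zero_count hS' hZ
    have h2 := off_sum hS' hZ
    set z := (((T0 n).filter (fun p => ps b Z p = 0)).card : ℝ) with hz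
    have h3 : ∏ e ∈ T0 n, gw a θ (ps b Z e) =
        Real.exp (-(l * z + θ * ∑ p ∈ T0 n, (ps b Z p : ℝ))) := by
      rw [prod_congr rfl (fun e _ => hgwe (ps b Z e)), ← Real.exp_sum]
      congr 1
      rw [sum_neg_distrib, sum_add_distrib, ← mul_sum, hz, card_filter, Nat.cast_sum]
      congr 2
      rw [mul_sum]
      apply sum_congr rfl
      intro e _
      split_ifs <;> simp
    rw [h3, ← Real.exp_add]
    apply Real.exp_le_exp.mpr
    have h4 : θ * ∑ p ∈ T0 n, (ps b Z p : ℝ) ≤ θ * (n * (μ - n * b) / 2) :=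
      mul_le_mul_of_nonneg_left h2 (by positivity)
    have h5 : l * z ≤ ((∑ x ∈ (univ : Finset (Fin n)),
      dg (fun i => univ.filter (fun j => (b : ℝ) + 1 ≤ Z i j)) univ x : ℕ) : ℝ) / (6 * n) := by
      rw [le_div_iff₀ (by positivity)]
      have : l * z * (6 * n) = 2 * z := by
        rw [hl]
        field_simp
        ring
      rw [this]
      exact h1
    rw [neg_div]
    linarith
  have hsum : ∑ Z ∈ S', ∏ e ∈ T0 n, gw a θ (ps b Z e) ≤ (1 - δ) ^ (T0 n).card * S'.card := by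
    have hinj := ps_inj hS'
    rw [← sum_image (f := fun x : Fin n × Fin n → ℕ => ∏ e ∈ T0 n, gw a θ (x e)) hinj,
      ← card_image_of_injOn hinj]
    apply down_weight _ _ hgw0 _ (by linarith) _ _ _
    · intro K
      exact gw_sum a w ha0 ha1 hw0 hw K
    · intro x hx e he k hk
      obtain ⟨A, hA, rfl⟩ := mem_image.mp hx
      obtain ⟨i, j⟩ := e
      have hij : i < j := (mem_filter.mp he).2
      have := ps_down hS' hij (ps b A (i, j) - k) A hA (Nat.sub_le _ _)
      have e2 : ps b A (i, j) - (ps b A (i, j) - k) = k := by omega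
      rw [e2] at this
      exact this
  have hcard : ((T0 n).card : ℝ) = n * (n - 1) / 2 := by
    have := card_T0 n
    have h2 : 2 * ((T0 n).card : ℝ) + n = n * n := by exact_mod_cast this
    linarith
  have hpow : (1 - δ) ^ (T0 n).card ≤ Real.exp (-(δ * (n * (n - 1) / 2))) := by
    calc (1 - δ) ^ (T0 n).card ≤ (Real.exp (-δ)) ^ (T0 n).card :=
          pow_le_pow_left₀ (by linarith) (Real.one_sub_le_exp_neg δ) _
      _ = Real.exp (-(δ * (n * (n - 1) / 2))) := by
        rw [← Real.exp_nat_mul, hcard]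
        congr 1
        ring
  calc (S.card : ℝ) ≤ _ := count_sum n b S S' hmap hlow hS'.sym
    _ ≤ ∑ Z ∈ S', Real.exp (θ * (n * (μ - n * b) / 2)) * ∏ e ∈ T0 n, gw a θ (ps b Z e) :=
      sum_le_sum hterm
    _ = Real.exp (θ * (n * (μ - n * b) / 2)) * ∑ Z ∈ S', ∏ e ∈ T0 n, gw a θ (ps b Z e) := by
      rw [mul_sum]
    _ ≤ Real.exp (θ * (n * (μ - n * b) / 2)) * ((1 - δ) ^ (T0 n).card * S'.card) :=
      mul_le_mul_of_nonneg_left hsum (Real.exp_pos _).le
    _ ≤ Real.exp (θ * (n * (μ - n * b) / 2)) *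
        (Real.exp (-(δ * (n * (n - 1) / 2))) * S'.card) := by
      apply mul_le_mul_of_nonneg_left _ (Real.exp_pos _).le
      exact mul_le_mul_of_nonneg_right hpow (Nat.cast_nonneg _)
    _ = S'.card * (Real.exp (θ * (n * (μ - n * b) / 2)) *
        Real.exp (-(δ * (n * (n - 1) / 2)))) := by ring
    _ = _ := by
      rw [← Real.exp_add]
      rfl

end Pool.Agent.H14e
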