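import Mathlib

namespace Pool.Agent.H14e

open PowerSeries

theorem coeff_zero_one_sub (F : PowerSeries ℤ) :
    coeff 0 ((1 - X) * F) = coeff 0 F := by
  rw [sub_mul, one_mul, map_sub]
  simp

theorem coeff_succ_one_sub (F : PowerSeries ℤ) (n : ℕ) :
    coeff (n + 1) ((1 - X) * F) = coeff (n + 1) F - coeff n F := by
  rw [sub_mul, one_mul, map_sub, coeff_succ_X_mul]

theorem ps_nonneg (D : ℕ) : ∀ (F : PowerSeries ℤ) (J : ℕ),
    (∀ m ≤ J, 0 ≤ coeff m F) → (∀ m < J, (D : ℤ) * coeff m F ≤ coeff (m + 1) F) →
    ∀ m ≤ J, 0 ≤ coeff m ((1 - X) ^ D * F) := by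
  induction D with
  | zero => intro F J h1 _ m hm; simpa using h1 m hm
  | succ D ih =>
    intro F J h1 h2 m hm
    have e : (1 - X : PowerSeries ℤ) ^ (D + 1) * F = (1 - X) ^ D * ((1 - X) * F) := by
      rw [pow_succ, mul_assoc]
    rw [e]
    have hpos : ∀ k ≤ J, 0 ≤ coeff k ((1 - X) * F) := by
      intro k hk
      cases k with
      | zero => rw [coeff_zero_one_sub]; exact h1 0 hk
      | succ k =>
        rw [coeff_succ_one_sub]
        have a := h2 k (by omega)
        have b := h1 k (by omega)
        push_cast at a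
        nlinarith [mul_nonneg (Int.natCast_nonneg D) b]
    apply ih _ J hpos _ m hm
    intro k hk
    cases k with
    | zero =>
      rw [coeff_zero_one_sub, coeff_succ_one_sub]
      have a := h2 0 hk
      push_cast at a
      linarith
    | succ k =>
      rw [coeff_succ_one_sub, coeff_succ_one_sub]
      have a := h2 (k + 1) hk
      have b := h1 k (by omega)
      push_cast at a
      nlinarith [mul_nonneg (Int.natCast_nonneg D) b]

end Pool.Agent.H14e
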