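import Pool.Agent.H14e.Geo

namespace Pool.Agent.H14e

open Finset
open scoped Pointwise

theorem ii_iff {E : Type*} [TopologicalSpace E] [AddCommGroup E] [Module ℝ E] (C : Set E) (y : E) :
    y ∈ intrinsicInterior ℝ C ↔ y ∈ affineSpan ℝ C ∧
      ∃ U : Set E, IsOpen U ∧ y ∈ U ∧ ∀ w ∈ U, w ∈ affineSpan ℝ C → w ∈ C := by
  constructor
  · rintro ⟨y', hy', rfl⟩
    refine ⟨y'.2, ?_⟩
    obtain ⟨t, ht, hto, hyt⟩ := mem_interior.mp hy'
    obtain ⟨U, hU, rfl⟩ := isOpen_induced_iff.mp hto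
    exact ⟨U, hU, hyt, fun w hw hws => ht (show (⟨w, hws⟩ : affineSpan ℝ C) ∈ _ from hw)⟩
  · rintro ⟨hy, U, hU, hyU, h⟩
    exact ⟨⟨y, hy⟩, mem_interior.mpr ⟨((↑) : affineSpan ℝ C → E) ⁻¹' U, fun w hw => h w hw w.2,
      hU.preimage continuous_subtype_val, hyU⟩, rfl⟩

/-- The integer matrices in the relative interior of `m P_n`. -/
def LI (n m : ℕ) : Set (Matrix (Fin n) (Fin n) ℝ) :=
  intrinsicInterior ℝ ((m : ℝ) • Pn n) ∩ IntMat n

theorem li_sub (n m : ℕ) : LI n m ⊆ LP n m :=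
  fun _ h => ⟨intrinsicInterior_subset h.1, h.2⟩

theorem li_finite (n m : ℕ) : (LI n m).Finite := (lp_finite n m).subset (li_sub n m)

theorem aff_sub {n m : ℕ} (hm : 1 ≤ m) {M w : Matrix (Fin n) (Fin n) ℝ} (hM : M ∈ Pn n)
    (hw : w ∈ affineSpan ℝ (((m + 1 : ℕ) : ℝ) • Pn n)) :
    w - M ∈ affineSpan ℝ ((m : ℝ) • Pn n) := by
  rw [← AffineSubspace.smul_span] at hw ⊢
  obtain ⟨a, ha, rfl⟩ := hw
  have hM' : M ∈ affineSpan ℝ (Pn n) := subset_affineSpan ℝ _ hM
  have hm0 : (m : ℝ) ≠ 0 := by positivity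
  refine ⟨AffineMap.lineMap M a (((m : ℝ) + 1) / m), AffineMap.lineMap_mem _ hM' ha, ?_⟩
  simp only [AffineMap.lineMap_apply_module']
  ext i j
  simp
  field_simp
  ring

theorem pt_add {n m : ℕ} {A M : Matrix (Fin n) (Fin n) ℝ} (hA : A ∈ ((m : ℝ) • Pn n))
    (hM : M ∈ Pn n) : A + M ∈ (((m + 1 : ℕ) : ℝ) • Pn n) := by
  obtain ⟨B, hB, hBA⟩ := hA
  have hm : (0 : ℝ) < (m : ℝ) + 1 := by positivity
  refine ⟨((m : ℝ) / (m + 1)) • B + (1 / ((m : ℝ) + 1)) • M, ?_, ?_⟩
  · apply (convex_convexHull ℝ (SymDS n ∩ IntMat n)) hB hM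
    · positivity
    · positivity
    · field_simp
  · rw [← hBA]
    simp only [smul_add, smul_smul]
    push_cast
    have e1 : ((m : ℝ) + 1) * (m / (m + 1)) = m := by field_simp
    have e2 : ((m : ℝ) + 1) * (1 / (m + 1)) = 1 := by field_simp
    rw [e1, e2, one_smul]

theorem li_add {n m : ℕ} (hm : 1 ≤ m) {A : Matrix (Fin n) (Fin n) ℝ} (hA : A ∈ LI n m)
    {σ : Equiv.Perm (Fin n)} (h : ∀ x, σ (σ x) = x) : A + pmat σ ∈ LI n (m + 1) := by
  have hM : pmat σ ∈ Pn n := subset_convexHull ℝ _ (pmat_mem h)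
  refine ⟨?_, (lp_add (li_sub n m hA) h).2⟩
  obtain ⟨hA1, _⟩ := hA
  have hAm : A ∈ ((m : ℝ) • Pn n) := intrinsicInterior_subset hA1
  rw [ii_iff] at hA1 ⊢
  obtain ⟨_, U, hU, hAU, hUC⟩ := hA1
  refine ⟨subset_affineSpan ℝ _ (pt_add hAm hM), {w | w - pmat σ ∈ U}, ?_, ?_, ?_⟩
  · exact hU.preimage (continuous_id.sub continuous_const)
  · simpa using hAU
  · intro w hw hws
    have h1 := hUC _ hw (aff_sub hm hM hws)
    have h2 := pt_add h1 hM
    simpa using h2

theorem li_pos {n m : ℕ} (hm : 1 ≤ m) {A : Matrix (Fin n) (Fin n) ℝ} (hA : A ∈ LI n m)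
    (i j : Fin n) : 1 ≤ A i j := by
  have hpos : 0 < A i j := by
    obtain ⟨hA1, _⟩ := hA
    rw [ii_iff] at hA1
    obtain ⟨hAs, U, hU, hAU, hUC⟩ := hA1
    have hsw : ∀ x, Equiv.swap i j (Equiv.swap i j x) = x := fun x => Equiv.swap_apply_self i j x
    have hM : pmat (Equiv.swap i j) ∈ Pn n := subset_convexHull ℝ _ (pmat_mem hsw)
    have hzs : (m : ℝ) • pmat (Equiv.swap i j) ∈ affineSpan ℝ ((m : ℝ) • Pn n) :=
      subset_affineSpan ℝ _ ⟨_, hM, rfl⟩
    let f : ℝ → Matrix (Fin n) (Fin n) ℝ := fun t => A + t • (A - (m : ℝ) • pmat (Equiv.swap i j))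
    have hf : Continuous f := by
      exact continuous_const.add (continuous_id.smul continuous_const)
    have hf0 : f 0 = A := by simp [f]
    have hnh : f ⁻¹' U ∈ nhds (0 : ℝ) := by
      apply hf.continuousAt.preimage_mem_nhds
      rw [hf0]
      exact hU.mem_nhds hAU
    obtain ⟨ε, hε, hball⟩ := Metric.mem_nhds_iff.mp hnh
    have ht : (ε / 2) ∈ Metric.ball (0 : ℝ) ε := by
      rw [Metric.mem_ball, Real.dist_eq, sub_zero, abs_of_pos (by linarith)]
      linarith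
    have h1 : f (ε / 2) ∈ U := hball ht
    have h2 : f (ε / 2) ∈ affineSpan ℝ ((m : ℝ) • Pn n) := by
      have := AffineMap.lineMap_mem (1 + ε / 2) hzs hAs
      have e : f (ε / 2) = AffineMap.lineMap ((m : ℝ) • pmat (Equiv.swap i j)) A (1 + ε / 2) := by
        simp only [f, AffineMap.lineMap_apply_module']
        module
      rw [e]
      exact this
    have h3 := hUC _ h1 h2
    have h4 : 0 ≤ f (ε / 2) i j := by
      obtain ⟨B, hB, hBe⟩ := h3
      rw [← hBe]
      have := (pn_sub n hB).2.1 i j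
      simp only [Matrix.smul_apply, smul_eq_mul]
      positivity
    simp only [f, Matrix.add_apply, Matrix.smul_apply, Matrix.sub_apply, smul_eq_mul, pmat,
      Equiv.swap_apply_left, if_true] at h4
    have hm' : (1 : ℝ) ≤ m := by exact_mod_cast hm
    by_contra hcon
    push Not at hcon
    nlinarith
  obtain ⟨k, hk⟩ := hA.2 i j
  rw [hk] at hpos ⊢
  have : 0 < k := by exact_mod_cast hpos
  exact_mod_cast this

theorem main_count_int (n m c : ℕ) (hm1 : 1 ≤ m) (hc : 1 ≤ c) (hm : m + c ≤ n + c * c) :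
    (Nat.card (LI n m)) *
      (univ.filter (fun σ : Equiv.Perm (Fin n) => ∀ x, σ (σ x) = x)).card
      ≤ Nat.card (LI n (m + 1)) * c ^ n := by
  classical
  set S := (li_finite n m).toFinset with hS
  set S' := (li_finite n (m + 1)).toFinset with hS'
  set I := (univ.filter (fun σ : Equiv.Perm (Fin n) => ∀ x, σ (σ x) = x)) with hI
  have hcS : Nat.card (LI n m) = S.card := by
    rw [hS, Nat.card_coe_set_eq, Set.ncard_eq_toFinset_card _ (li_finite n m)]
  have hcS' : Nat.card (LI n (m + 1)) = S'.card := by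
    rw [hS', Nat.card_coe_set_eq, Set.ncard_eq_toFinset_card _ (li_finite n (m + 1))]
  rw [hcS, hcS', ← card_product]
  have hmap : ∀ q ∈ S ×ˢ I, q.1 + pmat q.2 ∈ S' := by
    intro q hq
    obtain ⟨h1, h2⟩ := mem_product.mp hq
    rw [hS, Set.Finite.mem_toFinset] at h1
    rw [hI, mem_filter] at h2
    rw [hS', Set.Finite.mem_toFinset]
    exact li_add hm1 h1 h2.2
  rw [mul_comm]
  apply card_le_mul_card_image_of_maps_to hmap
  intro Z hZ
  rw [hS', Set.Finite.mem_toFinset] at hZ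
  have hZp := lp_props (li_sub _ _ hZ)
  have hZ1 := li_pos (by omega) hZ
  let N : Fin n → Finset (Fin n) := fun i => univ.filter (fun j => 2 ≤ Z i j)
  have hN : ∀ i, (N i).card ≤ m + 1 - n := by
    intro i
    have h1 : ((N i).card : ℝ) + n ≤ ∑ j, Z i j := by
      have e : ∑ j, Z i j = ∑ j, (Z i j - 1) + n := by
        rw [sum_sub_distrib]; simp
      rw [e]
      have : ((N i).card : ℝ) ≤ ∑ j, (Z i j - 1) := by
        calc ((N i).card : ℝ) = ∑ j ∈ N i, (1 : ℝ) := by simp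
          _ ≤ ∑ j ∈ N i, (Z i j - 1) := sum_le_sum (fun j hj => by
              have := (mem_filter.mp hj).2
              linarith)
          _ ≤ ∑ j, (Z i j - 1) := sum_le_sum_of_subset_of_nonneg (subset_univ _)
              (fun j _ _ => by linarith [hZ1 i j])
      linarith
    rw [hZp.2 i] at h1
    have h2 : (N i).card + n ≤ m + 1 := by exact_mod_cast h1
    omega
  have hcc : c ≤ c * c := by nlinarith
  have hbound := card_invs_le N c (m + 1 - n) hc (by omega) hN n univ (by simp)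
  refine le_trans ?_ hbound
  apply card_le_card_of_injOn (fun q => q.2)
  · intro q hq
    obtain ⟨hq1, hq2⟩ := mem_filter.mp hq
    obtain ⟨h1, h2⟩ := mem_product.mp hq1
    rw [hS, Set.Finite.mem_toFinset] at h1
    rw [hI, mem_filter] at h2
    apply mem_coe.mpr
    refine mem_invs.mpr ⟨h2.2, fun x hx => absurd (mem_univ x) hx, ?_⟩
    intro x _
    refine mem_filter.mpr ⟨mem_univ _, ?_⟩
    have h3 := li_pos hm1 h1 x (q.2 x)
    rw [← hq2, Matrix.add_apply]
    simp only [pmat, if_true]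
    linarith
  · intro q hq q' hq' he
    obtain ⟨_, hq2⟩ := mem_filter.mp (mem_coe.mp hq)
    obtain ⟨_, hq2'⟩ := mem_filter.mp (mem_coe.mp hq')
    have he' : q.2 = q'.2 := he
    have h3 : q.1 + pmat q.2 = q'.1 + pmat q'.2 := by rw [hq2, hq2']
    rw [he'] at h3
    exact Prod.ext (add_right_cancel h3) he'

end Pool.Agent.H14e
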