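import Pool.Agent.H14e.Cg
import Pool.Agent.H14e.Dn

namespace Pool.Agent.H14e

open Finset
open scoped Pointwise

/-- `e_i - e_j` -/
def vv {n : ℕ} (i j : Fin n) (a : Fin n) : ℝ :=
  (if a = i then 1 else 0) - (if a = j then 1 else 0)

/-- the switch matrix -/
def ww {n : ℕ} (i j : Fin n) : Matrix (Fin n) (Fin n) ℝ := fun a b => vv i j a * vv i j b

theorem vv_sum {n : ℕ} (i j : Fin n) : ∑ a, vv i j a = 0 := by
  simp [vv, sum_sub_distrib]

theorem vv_int {n : ℕ} (i j a : Fin n) : ∃ k : ℤ, vv i j a = k := by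
  unfold vv
  refine ⟨(if a = i then 1 else 0) - (if a = j then 1 else 0), ?_⟩
  push_cast
  rfl

/-- the map `A ↦ A + A_ij ww` -/
noncomputable def phi {n : ℕ} (i j : Fin n) :
    Matrix (Fin n) (Fin n) ℝ →ₗ[ℝ] Matrix (Fin n) (Fin n) ℝ where
  toFun A := A + A i j • ww i j
  map_add' A B := by
    ext a b
    simp only [Matrix.add_apply, Matrix.smul_apply, smul_eq_mul]
    ring
  map_smul' c A := by
    ext a b
    simp only [Matrix.add_apply, Matrix.smul_apply, smul_eq_mul, RingHom.id_apply]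
    ring

theorem phi_gen {n : ℕ} {i j : Fin n} (hij : i ≠ j) {B : Matrix (Fin n) (Fin n) ℝ}
    (hB : B ∈ SymDS n ∩ IntMat n) : phi i j B ∈ SymDS n ∩ IntMat n := by
  obtain ⟨⟨h1, h2, h3, h4⟩, h5⟩ := hB
  have hval : ∀ a b, phi i j B a b = B a b + B i j * (vv i j a * vv i j b) := fun _ _ => rfl
  refine ⟨⟨?_, ?_, ?_, ?_⟩, ?_⟩
  · intro a b
    rw [hval, hval, h1 a b, mul_comm (vv i j a)]
  · intro a b
    rw [hval]
    have hji : j ≠ i := Ne.symm hij
    have p0 := h2 a b
    have p1 := h2 i j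
    by_cases ha : a = i
    · subst ha
      by_cases hb : b = a
      · subst hb
        simp only [vv, if_true, if_neg hij]
        linarith
      · by_cases hb' : b = j
        · subst hb'
          simp only [vv, if_true, if_neg hij, if_neg hji]
          linarith
        · simp only [vv, if_true, if_neg hij, if_neg hb, if_neg hb']
          linarith
    · by_cases ha' : a = j
      · subst ha'
        by_cases hb : b = i
        · subst hb
          simp only [vv, if_true, if_neg hij, if_neg hji]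
          have := h1 a b
          linarith
        · by_cases hb' : b = a
          · subst hb'
            simp only [vv, if_true, if_neg hji]
            linarith
          · simp only [vv, if_true, if_neg hji, if_neg hb, if_neg hb']
            linarith
      · simp only [vv, if_neg ha, if_neg ha']
        linarith
  · intro a
    simp only [hval]
    rw [sum_add_distrib, h3 a, ← mul_sum, ← mul_sum, vv_sum]
    ring
  · intro b
    simp only [hval]
    rw [sum_add_distrib, h4 b, ← mul_sum, ← sum_mul, vv_sum]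
    ring
  · intro a b
    obtain ⟨k1, e1⟩ := h5 a b
    obtain ⟨k2, e2⟩ := h5 i j
    obtain ⟨k3, e3⟩ := vv_int i j a
    obtain ⟨k4, e4⟩ := vv_int i j b
    refine ⟨k1 + k2 * (k3 * k4), ?_⟩
    rw [hval, e1, e2, e3, e4]
    push_cast
    ring

theorem phi_mem {n : ℕ} {i j : Fin n} (hij : i ≠ j) {m : ℕ} {A : Matrix (Fin n) (Fin n) ℝ}
    (hA : A ∈ ((m : ℝ) • Pn n)) : phi i j A ∈ ((m : ℝ) • Pn n) := by
  obtain ⟨B, hB, rfl⟩ := hA
  refine ⟨phi i j B, ?_, ?_⟩
  · have h1 : phi i j B ∈ phi i j '' (convexHull ℝ (SymDS n ∩ IntMat n)) := ⟨B, hB, rfl⟩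
    rw [LinearMap.image_convexHull] at h1
    refine convexHull_mono ?_ h1
    rintro _ ⟨A, hA, rfl⟩
    exact phi_gen hij hA
  · exact ((phi i j).map_smul (m : ℝ) B).symm

theorem sw_eq {n : ℕ} {i j : Fin n} {A : Matrix (Fin n) (Fin n) ℝ} (h : A i j ≠ 0) :
    A + ww i j = (1 - 1 / A i j) • A + (1 / A i j) • phi i j A := by
  have e : phi i j A = A + A i j • ww i j := rfl
  rw [e, smul_add, smul_smul, one_div, inv_mul_cancel₀ h, one_smul, sub_smul, one_smul]
  abel

theorem sw_int {n m : ℕ} {i j : Fin n} {A : Matrix (Fin n) (Fin n) ℝ} (hA : A ∈ LP n m) :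
    A + ww i j ∈ IntMat n := by
  intro a b
  obtain ⟨k1, e1⟩ := hA.2 a b
  obtain ⟨k3, e3⟩ := vv_int i j a
  obtain ⟨k4, e4⟩ := vv_int i j b
  refine ⟨k1 + k3 * k4, ?_⟩
  rw [Matrix.add_apply, e1]
  simp only [ww, e3, e4]
  push_cast
  ring

theorem sw_lp {n m : ℕ} {i j : Fin n} (hij : i ≠ j) {A : Matrix (Fin n) (Fin n) ℝ}
    (hA : A ∈ LP n m) (h1 : 1 ≤ A i j) : A + ww i j ∈ LP n m := by
  refine ⟨?_, sw_int hA⟩
  rw [sw_eq (by linarith : A i j ≠ 0)]
  apply ((pn_convex n).smul (m : ℝ)) hA.1 (phi_mem hij hA.1)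
  · rw [sub_nonneg, div_le_one (by linarith)]
    exact h1
  · positivity
  · ring

theorem sw_li {n m : ℕ} {i j : Fin n} (hij : i ≠ j) {A : Matrix (Fin n) (Fin n) ℝ}
    (hA : A ∈ LI n m) (h1 : 2 ≤ A i j) : A + ww i j ∈ LI n m := by
  refine ⟨?_, sw_int (li_sub n m hA)⟩
  rw [sw_eq (by linarith : A i j ≠ 0)]
  apply ii_seg ((pn_convex n).smul (m : ℝ)) hA.1 (phi_mem hij (li_sub n m hA).1)
  · positivity
  · rw [div_lt_one (by linarith)]
    linarith

/-- the off-diagonal part, shifted by `b` -/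
noncomputable def ps {n : ℕ} (b : ℕ) (A : Matrix (Fin n) (Fin n) ℝ) : Fin n × Fin n → ℕ :=
  fun p => if p.1 < p.2 then ⌊A p.1 p.2⌋₊ - b else 0

/-- The properties of the sets of lattice points which are used. -/
structure Good (n b : ℕ) (μ : ℝ) (S : Finset (Matrix (Fin n) (Fin n) ℝ)) : Prop where
  int : ∀ A ∈ S, ∀ i j, ∃ k : ℤ, A i j = k
  sym : ∀ A ∈ S, ∀ i j, A i j = A j i
  low : ∀ A ∈ S, ∀ i j, (b : ℝ) ≤ A i j
  row : ∀ A ∈ S, ∀ i, ∑ j, A i j = μ
  sw : ∀ A ∈ S, ∀ i j, i ≠ j → (b : ℝ) + 1 ≤ A i j → A + ww i j ∈ S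

theorem ps_val {n b : ℕ} {μ : ℝ} {S : Finset (Matrix (Fin n) (Fin n) ℝ)} (hS : Good n b μ S)
    {A : Matrix (Fin n) (Fin n) ℝ} (hA : A ∈ S) {i j : Fin n} (hij : i < j) :
    (ps b A (i, j) : ℝ) = A i j - b := by
  obtain ⟨k, hk⟩ := hS.int A hA i j
  have h1 := hS.low A hA i j
  rw [hk] at h1
  have h2 : (b : ℤ) ≤ k := by exact_mod_cast h1
  obtain ⟨l, rfl⟩ := Int.eq_ofNat_of_zero_le (by omega : 0 ≤ k)
  have h3 : A i j = (l : ℝ) := by rw [hk]; norm_cast
  have h4 : b ≤ l := by omega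
  unfold ps
  simp only [hij, if_true]
  rw [h3, Nat.floor_natCast, Nat.cast_sub h4]

theorem ps_inj {n b : ℕ} {μ : ℝ} {S : Finset (Matrix (Fin n) (Fin n) ℝ)} (hS : Good n b μ S) :
    Set.InjOn (ps b) (S : Set (Matrix (Fin n) (Fin n) ℝ)) := by
  intro A hA B hB h
  have hA' := mem_coe.mp hA
  have hB' := mem_coe.mp hB
  have hoff : ∀ i j : Fin n, i < j → A i j = B i j := by
    intro i j hij
    have h1 := ps_val hS hA' hij
    have h2 := ps_val hS hB' hij
    rw [h] at h1
    linarith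
  have hoff2 : ∀ i j : Fin n, i ≠ j → A i j = B i j := by
    intro i j hij
    rcases lt_or_gt_of_ne hij with h1 | h1
    · exact hoff i j h1
    · rw [hS.sym A hA' i j, hS.sym B hB' i j]
      exact hoff j i h1
  ext i j
  by_cases hij : i = j
  · subst hij
    have h1 := hS.row A hA' i
    have h2 := hS.row B hB' i
    rw [← add_sum_erase _ _ (mem_univ i)] at h1 h2
    have h3 : ∑ x ∈ univ.erase i, A i x = ∑ x ∈ univ.erase i, B i x :=
      sum_congr rfl (fun x hx => hoff2 i x (Ne.symm (mem_erase.mp hx).1))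
    linarith
  · exact hoff2 i j hij

theorem ww_off {n : ℕ} {i j a c : Fin n} (hij : i < j) (hac : a < c) (hne : (a, c) ≠ (i, j)) :
    ww i j a c = 0 := by
  unfold ww vv
  by_cases h1 : a = i
  · subst h1
    have hc : c ≠ j := fun hc => hne (by rw [hc])
    have hc' : c ≠ a := ne_of_gt hac
    simp [hc, hc']
  · by_cases h2 : a = j
    · subst h2
      have hc : c ≠ i := fun hc => by
        subst hc
        exact absurd hij (not_lt_of_gt hac)
      have hc' : c ≠ a := ne_of_gt hac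
      simp [hc, hc']
    · simp [h1, h2]

theorem ps_sw {n b : ℕ} {μ : ℝ} {S : Finset (Matrix (Fin n) (Fin n) ℝ)} (hS : Good n b μ S)
    {A : Matrix (Fin n) (Fin n) ℝ} (hA : A ∈ S) {i j : Fin n} (hij : i < j)
    (h1 : 1 ≤ ps b A (i, j)) :
    A + ww i j ∈ S ∧ ps b (A + ww i j) = Function.update (ps b A) (i, j) (ps b A (i, j) - 1) := by
  have hv := ps_val hS hA hij
  have hge : (b : ℝ) + 1 ≤ A i j := by
    have : (1 : ℝ) ≤ ps b A (i, j) := by exact_mod_cast h1
    linarith
  have hmem := hS.sw A hA i j (ne_of_lt hij) hge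
  refine ⟨hmem, ?_⟩
  funext p
  obtain ⟨a, c⟩ := p
  by_cases hp : (a, c) = (i, j)
  · rw [hp, Function.update_self]
    have hv2 := ps_val hS hmem hij
    have hw : ww i j i j = -1 := by
      simp [ww, vv, ne_of_lt hij, ne_of_gt hij]
    rw [Matrix.add_apply, hw] at hv2
    have : (ps b (A + ww i j) (i, j) : ℝ) = ((ps b A (i, j) - 1 : ℕ) : ℝ) := by
      rw [Nat.cast_sub h1, Nat.cast_one, hv, hv2]
      ring
    exact_mod_cast this
  · rw [Function.update_of_ne hp]
    unfold ps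
    by_cases hac : a < c
    · simp only [hac, if_true, Matrix.add_apply, ww_off hij hac hp, add_zero]
    · simp only [hac, if_false]

theorem ps_down {n b : ℕ} {μ : ℝ} {S : Finset (Matrix (Fin n) (Fin n) ℝ)} (hS : Good n b μ S)
    {i j : Fin n} (hij : i < j) : ∀ (r : ℕ) (A : Matrix (Fin n) (Fin n) ℝ), A ∈ S →
    r ≤ ps b A (i, j) →
    Function.update (ps b A) (i, j) (ps b A (i, j) - r) ∈ S.image (ps b) := by
  intro r
  induction r with
  | zero =>
    intro A hA _
    rw [Nat.sub_zero, Function.update_eq_self]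
    exact mem_image_of_mem _ hA
  | succ r ih =>
    intro A hA hr
    obtain ⟨h1, h2⟩ := ps_sw hS hA hij (by omega)
    have h3 : ps b (A + ww i j) (i, j) = ps b A (i, j) - 1 := by
      rw [h2, Function.update_self]
    have h4 := ih (A + ww i j) h1 (by rw [h3]; omega)
    rw [h3, h2, Function.update_idem] at h4
    have e : ps b A (i, j) - 1 - r = ps b A (i, j) - (r + 1) := by omega
    rw [e] at h4
    exact h4

end Pool.Agent.H14e
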