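import Pool.Agent.H14e.Inv

namespace Pool.Agent.H14e

open Finset

/-- telephone numbers -/
def T : ℕ → ℕ
  | 0 => 1
  | 1 => 1
  | (s + 2) => T (s + 1) + (s + 1) * T s

theorem T_pos : ∀ s, 0 < T s
  | 0 => by simp [T]
  | 1 => by simp [T]
  | (s + 2) => by
      have := T_pos (s + 1)
      rw [T]
      omega

theorem T_mono (s : ℕ) : T s ≤ T (s + 1) := by
  cases s with
  | zero => simp [T]
  | succ s => rw [T]; omega

theorem T_le (s : ℕ) : T (s + 1) ≤ (s + 1) * T s := by
  cases s with
  | zero => simp [T]
  | succ s =>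
    rw [T]
    have := T_mono s
    nlinarith

variable {α : Type*} [Fintype α] [DecidableEq α]

theorem T_le_invs : ∀ (s : ℕ) (V : Finset α), V.card = s →
    T s ≤ (invs (fun _ => univ) V).card := by
  intro s
  induction s using Nat.strong_induction_on with
  | _ s ih =>
    intro V hV
    rcases Nat.lt_or_ge s 2 with hs | hs
    · have h1 : (1 : Equiv.Perm α) ∈ invs (fun _ => univ) V :=
        mem_invs.mpr ⟨fun _ => rfl, fun _ _ => rfl, fun _ _ => mem_univ _⟩
      have h2 : 0 < (invs (fun _ : α => (univ : Finset α)) V).card := card_pos.mpr ⟨_, h1⟩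
      have h3 : T s = 1 := by
        have : s = 0 ∨ s = 1 := by omega
        rcases this with h | h <;> subst h <;> rfl
      omega
    · obtain ⟨t, rfl⟩ : ∃ t, s = t + 2 := ⟨s - 2, by omega⟩
      obtain ⟨v, hv⟩ : V.Nonempty := card_pos.mp (by omega)
      let A := invs (fun _ : α => (univ : Finset α)) (V.erase v)
      let B := fun u => (invs (fun _ : α => (univ : Finset α)) ((V.erase v).erase u)).image
        (fun σ => σ * Equiv.swap v u)
      have hA : T (t + 1) ≤ A.card :=
        ih (t + 1) (by omega) _ (by rw [card_erase_of_mem hv, hV]; omega)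
      have hB : ∀ u ∈ V.erase v, T t ≤ (B u).card := by
        intro u hu
        rw [card_image_of_injective _ (fun σ τ h => mul_right_cancel h)]
        apply ih t (by omega)
        rw [card_erase_of_mem hu, card_erase_of_mem hv, hV]
        omega
      have hBv : ∀ u ∈ V.erase v, ∀ σ ∈ B u, σ v = u := by
        intro u hu σ hσ
        obtain ⟨τ, hτ, rfl⟩ := mem_image.mp hσ
        have h := mem_invs.mp hτ
        rw [Equiv.Perm.mul_apply, Equiv.swap_apply_left]
        exact h.2.1 u (fun hc => (mem_erase.mp hc).1 rfl)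
      have hAv : ∀ σ ∈ A, σ v = v := by
        intro σ hσ
        exact (mem_invs.mp hσ).2.1 v (fun hc => (mem_erase.mp hc).1 rfl)
      have hdisj : (↑(V.erase v) : Set α).PairwiseDisjoint B := by
        intro u hu w hw huw
        rw [Function.onFun, disjoint_left]
        intro σ h1 h2
        exact huw ((hBv u hu σ h1).symm.trans (hBv w hw σ h2))
      have hdisj2 : Disjoint A ((V.erase v).biUnion B) := by
        rw [disjoint_left]
        intro σ h1 h2
        obtain ⟨u, hu, h3⟩ := mem_biUnion.mp h2
        have := hBv u hu σ h3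
        rw [hAv σ h1] at this
        exact (mem_erase.mp hu).1 this.symm
      have hsub : A ∪ (V.erase v).biUnion B ⊆ invs (fun _ => univ) V := by
        intro σ hσ
        rcases mem_union.mp hσ with h | h
        · have h' := mem_invs.mp h
          exact mem_invs.mpr ⟨h'.1, fun x hx => h'.2.1 x (fun hc => hx (mem_of_mem_erase hc)),
            fun _ _ => mem_univ _⟩
        · obtain ⟨u, hu, h3⟩ := mem_biUnion.mp h
          obtain ⟨τ, hτ, rfl⟩ := mem_image.mp h3
          have h' := mem_invs.mp hτ
          have huv : u ≠ v := (mem_erase.mp hu).1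
          have huV : u ∈ V := (mem_erase.mp hu).2
          have hτv : τ v = v := h'.2.1 v (fun hc => by
            have := (mem_erase.mp (mem_erase.mp hc).2).1
            exact this rfl)
          have hτu : τ u = u := h'.2.1 u (fun hc => (mem_erase.mp hc).1 rfl)
          refine mem_invs.mpr ⟨?_, ?_, fun _ _ => mem_univ _⟩
          · intro x
            simp only [Equiv.Perm.mul_apply]
            by_cases hxv : x = v
            · subst hxv; simp [hτv, hτu]
            · by_cases hxu : x = u
              · subst hxu; simp [hτv, hτu]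
              · rw [Equiv.swap_apply_of_ne_of_ne hxv hxu]
                rw [Equiv.swap_apply_of_ne_of_ne, h'.1]
                · intro hh; apply hxv
                  have := h'.1 x; rw [hh, hτv] at this; exact this.symm
                · intro hh; apply hxu
                  have := h'.1 x; rw [hh, hτu] at this; exact this.symm
          · intro x hx
            simp only [Equiv.Perm.mul_apply]
            have hxv : x ≠ v := fun hh => hx (hh ▸ hv)
            have hxu : x ≠ u := fun hh => hx (hh ▸ huV)
            rw [Equiv.swap_apply_of_ne_of_ne hxv hxu]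
            exact h'.2.1 x (fun hc => hx (mem_of_mem_erase (mem_of_mem_erase hc)))
      calc T (t + 2) = T (t + 1) + (t + 1) * T t := by rw [T]
        _ ≤ A.card + ((V.erase v).biUnion B).card := by
          apply Nat.add_le_add hA
          rw [card_biUnion (fun u hu w hw h => hdisj hu hw h)]
          calc (t + 1) * T t = ∑ _u ∈ V.erase v, T t := by
                rw [sum_const, card_erase_of_mem hv, hV, smul_eq_mul]
                congr 1
            _ ≤ ∑ u ∈ V.erase v, (B u).card := sum_le_sum hB
        _ = (A ∪ (V.erase v).biUnion B).card := (card_union_of_disjoint hdisj2).symm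
        _ ≤ _ := card_le_card hsub

/-- number of forbidden partners of `x` inside `V` -/
def dg (N : α → Finset α) (V : Finset α) (x : α) : ℕ := ((V.erase x) \ N x).card

theorem dg_erase_ge (N : α → Finset α) (V : Finset α) (v x : α) :
    dg N V x ≤ dg N (V.erase v) x + (if v ∉ N x ∧ v ≠ x then 1 else 0) := by
  unfold dg
  by_cases h : v ∉ N x ∧ v ≠ x
  · rw [if_pos h]
    have : (V.erase x) \ N x ⊆ insert v (((V.erase v).erase x) \ N x) := by
      intro y hy
      obtain ⟨h1, h2⟩ := mem_sdiff.mp hy
      obtain ⟨h3, h4⟩ := mem_erase.mp h1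
      by_cases hyv : y = v
      · exact mem_insert.mpr (Or.inl hyv)
      · exact mem_insert.mpr (Or.inr (mem_sdiff.mpr ⟨mem_erase.mpr ⟨h3, mem_erase.mpr ⟨hyv, h4⟩⟩, h2⟩))
    exact (card_le_card this).trans (card_insert_le _ _)
  · rw [if_neg h, add_zero]
    apply card_le_card
    intro y hy
    obtain ⟨h1, h2⟩ := mem_sdiff.mp hy
    obtain ⟨h3, h4⟩ := mem_erase.mp h1
    refine mem_sdiff.mpr ⟨mem_erase.mpr ⟨h3, mem_erase.mpr ⟨?_, h4⟩⟩, h2⟩
    intro hyv
    subst hyv
    exact h ⟨h2, h3⟩

theorem D_erase (N : α → Finset α) (hN : ∀ x y, y ∈ N x ↔ x ∈ N y) (V : Finset α) {v : α}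
    (hv : v ∈ V) :
    ∑ x ∈ V, dg N V x ≤ ∑ x ∈ V.erase v, dg N (V.erase v) x + 2 * dg N V v := by
  rw [← add_sum_erase _ _ hv]
  have h1 : ∑ x ∈ V.erase v, dg N V x ≤
      ∑ x ∈ V.erase v, (dg N (V.erase v) x + (if v ∉ N x ∧ v ≠ x then 1 else 0)) :=
    sum_le_sum (fun x _ => dg_erase_ge N V v x)
  have h2 : ∑ x ∈ V.erase v, (if v ∉ N x ∧ v ≠ x then 1 else 0) ≤ dg N V v := by
    rw [sum_boole, Nat.cast_id]
    unfold dg
    apply card_le_card
    intro x hx
    obtain ⟨h3, h4, h5⟩ := mem_filter.mp hx
    exact mem_sdiff.mpr ⟨h3, fun hc => h4 ((hN v x).mp hc)⟩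
  rw [sum_add_distrib] at h1
  omega

end Pool.Agent.H14e
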