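import Pool.Agent.H14e.Up

namespace Pool.Agent.H14e

open Finset

variable {α : Type*} [Fintype α] [DecidableEq α]

theorem invs_split (N : α → Finset α) (V : Finset α) {v : α} (hv : v ∈ V) :
    (invs N V).card ≤ (invs N (V.erase v)).card +
      ∑ u ∈ (V.erase v).filter (fun u => u ∈ N v), (invs N ((V.erase v).erase u)).card := by
  let A := (invs N V).filter (fun σ => σ v = v)
  let I := (V.erase v).filter (fun u => u ∈ N v)
  let B := fun u => (invs N V).filter (fun σ => σ v = u)
  have hcov : invs N V ⊆ A ∪ I.biUnion B := by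
    intro σ hσ
    have hσ' := mem_invs.mp hσ
    by_cases h : σ v = v
    · exact mem_union_left _ (mem_filter.mpr ⟨hσ, h⟩)
    · refine mem_union_right _ (mem_biUnion.mpr ⟨σ v, ?_, mem_filter.mpr ⟨hσ, rfl⟩⟩)
      refine mem_filter.mpr ⟨mem_erase.mpr ⟨h, ?_⟩, hσ'.2.2 v hv⟩
      by_contra hcon
      have := hσ'.2.1 (σ v) hcon
      rw [hσ'.1 v] at this
      exact h this.symm
  have hA1 : A.card ≤ (invs N (V.erase v)).card := by
    apply card_le_card
    intro σ hσ
    obtain ⟨hσ1, hσ2⟩ := mem_filter.mp hσ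
    have h := mem_invs.mp hσ1
    refine mem_invs.mpr ⟨h.1, ?_, ?_⟩
    · intro x hx
      by_cases hxv : x = v
      · rw [hxv]; exact hσ2
      · exact h.2.1 x (fun hxV => hx (mem_erase.mpr ⟨hxv, hxV⟩))
    · intro x hx
      exact h.2.2 x (mem_of_mem_erase hx)
  have hB : ∀ u ∈ I, (B u).card ≤ (invs N ((V.erase v).erase u)).card := by
    intro u hu
    obtain ⟨hu1, hu2⟩ := mem_filter.mp hu
    have huv : u ≠ v := (mem_erase.mp hu1).1
    have huV : u ∈ V := (mem_erase.mp hu1).2
    apply card_le_card_of_injOn (fun σ => σ * Equiv.swap v u)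
    · intro σ hσ
      obtain ⟨hσ1, hσ2⟩ := mem_filter.mp hσ
      have h := mem_invs.mp hσ1
      have hσu : σ u = v := by rw [← hσ2]; exact h.1 v
      apply mem_coe.mpr
      refine mem_invs.mpr ⟨?_, ?_, ?_⟩
      · intro x
        simp only [Equiv.Perm.mul_apply]
        by_cases hxv : x = v
        · subst hxv; simp [hσu]
        · by_cases hxu : x = u
          · subst hxu; simp [hσ2]
          · rw [Equiv.swap_apply_of_ne_of_ne hxv hxu]
            rw [Equiv.swap_apply_of_ne_of_ne, h.1]
            · intro h'; apply hxu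
              have := h.1 x; rw [h', hσ2] at this; exact this.symm
            · intro h'; apply hxv
              have := h.1 x; rw [h', hσu] at this; exact this.symm
      · intro x hx
        simp only [Equiv.Perm.mul_apply]
        by_cases hxv : x = v
        · subst hxv; simp [hσu]
        · by_cases hxu : x = u
          · subst hxu; simp [hσ2]
          · rw [Equiv.swap_apply_of_ne_of_ne hxv hxu]
            apply h.2.1
            intro hxV
            exact hx (mem_erase.mpr ⟨hxu, mem_erase.mpr ⟨hxv, hxV⟩⟩)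
      · intro x hx
        obtain ⟨hxu, hx'⟩ := mem_erase.mp hx
        obtain ⟨hxv, hxV⟩ := mem_erase.mp hx'
        simp only [Equiv.Perm.mul_apply]
        rw [Equiv.swap_apply_of_ne_of_ne hxv hxu]
        exact h.2.2 x hxV
    · intro σ _ τ _ h
      exact mul_right_cancel h
  calc (invs N V).card ≤ (A ∪ I.biUnion B).card := card_le_card hcov
    _ ≤ A.card + (I.biUnion B).card := card_union_le _ _
    _ ≤ (invs N (V.erase v)).card + ∑ u ∈ I, (invs N ((V.erase v).erase u)).card := by
      apply Nat.add_le_add hA1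
      exact card_biUnion_le.trans (sum_le_sum hB)

theorem invs_small (N : α → Finset α) (V : Finset α) (h : V.card ≤ 1) : (invs N V).card ≤ 1 := by
  have : invs N V ⊆ {1} := by
    intro σ hσ
    have hσ' := mem_invs.mp hσ
    rw [mem_singleton]
    ext x
    rw [Equiv.Perm.one_apply]
    by_contra hx
    have h1 : x ∈ V := by
      by_contra hc
      exact hx (hσ'.2.1 x hc)
    have h2 : σ x ∈ V := by
      by_contra hc
      have := hσ'.2.1 _ hc
      rw [hσ'.1 x] at this
      exact hx this.symm
    exact hx (card_le_one.mp h _ h2 _ h1)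
  exact (card_le_card this).trans (by simp)

theorem exp_bd {x : ℝ} (h0 : 0 ≤ x) (h1 : x ≤ 1) : Real.exp x ≤ 1 + x + x ^ 2 := by
  have h := Real.abs_exp_sub_one_sub_id_le (x := x) (by rw [abs_of_nonneg h0]; exact h1)
  have := (abs_le.mp h).2
  linarith

theorem step_ineq (n t z : ℕ) (hz : z ≤ t + 1) (ht : t + 2 ≤ n) :
    (T (t + 1) : ℝ) * Real.exp ((z : ℝ) / (3 * n)) +
      ((t + 1 - z : ℕ) : ℝ) * (T t * Real.exp (2 * ((z : ℝ) / (3 * n)))) ≤ T (t + 2) := by
  have hT : (T (t + 1) : ℝ) ≤ ((t : ℝ) + 1) * T t := by exact_mod_cast T_le t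
  have hT2 : (T (t + 2) : ℝ) = T (t + 1) + ((t : ℝ) + 1) * T t := by
    rw [T]; push_cast; ring
  have hn0 : (0 : ℝ) < n := by
    have : 0 < n := by omega
    exact_mod_cast this
  have htn : (t : ℝ) + 2 ≤ n := by exact_mod_cast ht
  have hzt : (z : ℝ) ≤ (t : ℝ) + 1 := by exact_mod_cast hz
  have hz0 : (0 : ℝ) ≤ z := Nat.cast_nonneg z
  have hTt : (0 : ℝ) ≤ T t := Nat.cast_nonneg _
  have hT1 : (0 : ℝ) ≤ T (t + 1) := Nat.cast_nonneg _
  set a : ℝ := (z : ℝ) / (3 * n) with ha
  have ha0 : 0 ≤ a := by positivity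
  have haz : 3 * n * a = z := by rw [ha]; field_simp
  have ha1 : 3 * a ≤ 1 := by
    rw [ha, ← mul_div_assoc, div_le_one (by positivity)]
    nlinarith
  have e1 := exp_bd ha0 (by linarith)
  have e2 := exp_bd (x := 2 * a) (by linarith) (by linarith)
  have hsub : ((t + 1 - z : ℕ) : ℝ) = (t : ℝ) + 1 - z := by
    rw [Nat.cast_sub hz]; push_cast; ring
  rw [hsub, hT2]
  have hc : 0 ≤ (t : ℝ) + 1 - z := by linarith
  have b1 : (T (t + 1) : ℝ) * Real.exp a ≤ T (t + 1) + T (t + 1) * (a + a ^ 2) := by
    nlinarith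
  have b2 : (T (t + 1) : ℝ) * (a + a ^ 2) ≤ (n * T t) * (a + a ^ 2) := by
    apply mul_le_mul_of_nonneg_right _ (by positivity)
    calc (T (t + 1) : ℝ) ≤ ((t : ℝ) + 1) * T t := hT
      _ ≤ n * T t := mul_le_mul_of_nonneg_right (by linarith) hTt
  have b3 : ((t : ℝ) + 1 - z) * (T t * Real.exp (2 * a)) ≤
      ((t : ℝ) + 1 - z) * T t + ((t : ℝ) + 1 - z) * T t * (2 * a + 4 * a ^ 2) := by
    have : T t * Real.exp (2 * a) ≤ T t * (1 + 2 * a + (2 * a) ^ 2) :=
      mul_le_mul_of_nonneg_left e2 hTt
    calc ((t : ℝ) + 1 - z) * (T t * Real.exp (2 * a))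
        ≤ ((t : ℝ) + 1 - z) * (T t * (1 + 2 * a + (2 * a) ^ 2)) :=
          mul_le_mul_of_nonneg_left this hc
      _ = _ := by ring
  have b4 : ((t : ℝ) + 1 - z) * T t * (2 * a + 4 * a ^ 2) ≤
      ((n : ℝ) - z) * T t * (2 * a + 4 * a ^ 2) := by
    apply mul_le_mul_of_nonneg_right _ (by positivity)
    exact mul_le_mul_of_nonneg_right (by linarith) hTt
  have b5 : (n * T t) * (a + a ^ 2) + ((n : ℝ) - z) * T t * (2 * a + 4 * a ^ 2) ≤ z * T t := by
    rw [← haz]
    have : n * T t * (a + a ^ 2) + ((n : ℝ) - 3 * n * a) * T t * (2 * a + 4 * a ^ 2)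
        = 3 * n * a * T t - (n * T t) * (a ^ 2 + 12 * a ^ 3) := by ring
    rw [this]
    have : 0 ≤ (n * T t) * (a ^ 2 + 12 * a ^ 3) := by positivity
    linarith
  linarith

theorem invs_upper (N : α → Finset α) (hN : ∀ x y, y ∈ N x ↔ x ∈ N y) (n : ℕ) :
    ∀ (s : ℕ) (V : Finset α), V.card = s → s ≤ n →
      ((invs N V).card : ℝ) ≤ T s * Real.exp (-((∑ x ∈ V, dg N V x : ℕ) : ℝ) / (6 * n)) := by
  intro s
  induction s using Nat.strong_induction_on with
  | _ s ih =>
    intro V hV hsn
    rcases Nat.lt_or_ge s 2 with hs | hs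
    · have h1 := invs_small N V (by omega)
      have h3 : T s = 1 := by
        have : s = 0 ∨ s = 1 := by omega
        rcases this with h | h <;> subst h <;> rfl
      have h4 : ∑ x ∈ V, dg N V x = 0 := by
        apply sum_eq_zero
        intro x hx
        unfold dg
        have : V.erase x = ∅ := by
          rw [← card_eq_zero, card_erase_of_mem hx]
          omega
        rw [this]
        simp
      rw [h3, h4]
      simp only [Nat.cast_zero, neg_zero, zero_div, Real.exp_zero, Nat.cast_one, mul_one]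
      exact_mod_cast h1
    · obtain ⟨t, rfl⟩ : ∃ t, s = t + 2 := ⟨s - 2, by omega⟩
      have hVne : V.Nonempty := card_pos.mp (by omega)
      obtain ⟨v, hv, hmax⟩ := exists_max_image V (dg N V) hVne
      set z := dg N V v with hz
      set D := ∑ x ∈ V, dg N V x with hD
      have hn0 : (0 : ℝ) < n := by
        have : 0 < n := by omega
        exact_mod_cast this
      have hc1 : (V.erase v).card = t + 1 := by rw [card_erase_of_mem hv, hV]; omega
      have hzle : z ≤ t + 1 := by
        rw [hz, ← hc1]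
        exact card_le_card sdiff_subset
      have hD1 := D_erase N hN V hv
      have hA := ih (t + 1) (by omega) (V.erase v) hc1 (by omega)
      have hA' : ((invs N (V.erase v)).card : ℝ) ≤
          Real.exp (-(D : ℝ) / (6 * n)) * (T (t + 1) * Real.exp ((z : ℝ) / (3 * n))) := by
        refine hA.trans ?_
        rw [mul_left_comm, ← Real.exp_add]
        apply mul_le_mul_of_nonneg_left _ (Nat.cast_nonneg _)
        apply Real.exp_le_exp.mpr
        have : (D : ℝ) ≤ ((∑ x ∈ V.erase v, dg N (V.erase v) x : ℕ) : ℝ) + 2 * z := by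
          exact_mod_cast hD1
        rw [div_add_div _ _ (by positivity) (by positivity), div_le_div_iff₀ (by positivity)
          (by positivity)]
        nlinarith [mul_pos hn0 hn0, mul_pos (mul_pos hn0 hn0) hn0]
      have hB' : ∀ u ∈ (V.erase v).filter (fun u => u ∈ N v),
          ((invs N ((V.erase v).erase u)).card : ℝ) ≤
          Real.exp (-(D : ℝ) / (6 * n)) * (T t * Real.exp (2 * ((z : ℝ) / (3 * n)))) := by
        intro u hu
        have hu1 := (mem_filter.mp hu).1
        have hc2 : ((V.erase v).erase u).card = t := by rw [card_erase_of_mem hu1, hc1]; omega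
        refine (ih t (by omega) _ hc2 (by omega)).trans ?_
        rw [mul_left_comm, ← Real.exp_add]
        apply mul_le_mul_of_nonneg_left _ (Nat.cast_nonneg _)
        apply Real.exp_le_exp.mpr
        have hD2 := D_erase N hN (V.erase v) hu1
        have hz2 : dg N (V.erase v) u ≤ z := by
          refine le_trans ?_ (hmax u (mem_of_mem_erase hu1))
          unfold dg
          exact card_le_card (sdiff_subset_sdiff (erase_subset_erase _ (erase_subset _ _)) le_rfl)
        have h3 : D ≤ ∑ x ∈ (V.erase v).erase u, dg N ((V.erase v).erase u) x + 4 * z := by omega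
        have : (D : ℝ) ≤ ((∑ x ∈ (V.erase v).erase u, dg N ((V.erase v).erase u) x : ℕ) : ℝ)
            + 4 * z := by exact_mod_cast h3
        have e : 2 * ((z : ℝ) / (3 * n)) = (4 * z) / (6 * n) := by
          field_simp
          ring
        rw [e, ← add_div]
        apply div_le_div_of_nonneg_right _ (by positivity)
        linarith
      have hI : ((V.erase v).filter (fun u => u ∈ N v)).card = t + 1 - z := by
        have h1 : (V.erase v).filter (fun u => u ∈ N v) = (V.erase v) \ ((V.erase v) \ N v) := by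
          ext u
          simp only [mem_filter, mem_sdiff]
          tauto
        rw [h1, card_sdiff_of_subset sdiff_subset, hc1]
        rfl
      have hsplit := invs_split N V hv
      have hsplit' : ((invs N V).card : ℝ) ≤ (invs N (V.erase v)).card +
          ∑ u ∈ (V.erase v).filter (fun u => u ∈ N v),
            ((invs N ((V.erase v).erase u)).card : ℝ) := by
        exact_mod_cast hsplit
      calc ((invs N V).card : ℝ) ≤ (invs N (V.erase v)).card +
          ∑ u ∈ (V.erase v).filter (fun u => u ∈ N v),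
            ((invs N ((V.erase v).erase u)).card : ℝ) := hsplit'
        _ ≤ Real.exp (-(D : ℝ) / (6 * n)) * (T (t + 1) * Real.exp ((z : ℝ) / (3 * n))) +
            ∑ _u ∈ (V.erase v).filter (fun u => u ∈ N v),
              Real.exp (-(D : ℝ) / (6 * n)) * (T t * Real.exp (2 * ((z : ℝ) / (3 * n)))) :=
          add_le_add hA' (sum_le_sum hB')
        _ = Real.exp (-(D : ℝ) / (6 * n)) * ((T (t + 1) : ℝ) * Real.exp ((z : ℝ) / (3 * n)) +
            ((t + 1 - z : ℕ) : ℝ) * (T t * Real.exp (2 * ((z : ℝ) / (3 * n))))) := by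
          rw [sum_const, hI, nsmul_eq_mul]
          ring
        _ ≤ Real.exp (-(D : ℝ) / (6 * n)) * T (t + 2) :=
          mul_le_mul_of_nonneg_left (step_ineq n t z hzle hsn) (Real.exp_pos _).le
        _ = T (t + 2) * Real.exp (-(D : ℝ) / (6 * n)) := mul_comm _ _

end Pool.Agent.H14e
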